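import Pool.Agent.Helper97.MC.St

/-!
# Many cells in an arrangement of circles: the configuration, part 1
-/

set_option autoImplicit false

namespace Pool.Agent.Helper97.MC

open Set Filter Topology

/-! ### General lemmas -/

theorem sphere_inj {z z' : ℂ} {r r' : ℝ} (hr : 0 < r) (hr' : 0 < r')
    (h : Metric.sphere z r = Metric.sphere z' r') : z = z' ∧ r = r' := by
  have key : ∀ w : ℂ, ‖w‖ = r → ‖z + w - z'‖ = r' := by
    intro w hw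
    have h1 : z + w ∈ Metric.sphere z r := by
      rw [mem_sphere_iff_norm]; simpa using hw
    rw [h, mem_sphere_iff_norm] at h1
    exact h1
  have hsq : ∀ w : ℂ, ‖w‖ = r → (z.re + w.re - z'.re) ^ 2 + (z.im + w.im - z'.im) ^ 2 = r' ^ 2 := by
    intro w hw
    have := key w hw
    rw [← this, ← Complex.normSq_eq_norm_sq, Complex.normSq_apply]
    simp
    ring
  have e1 := hsq (⟨r, 0⟩ : ℂ) (by
    rw [show (⟨r, 0⟩ : ℂ) = (r : ℂ) from rfl, Complex.norm_real, Real.norm_of_nonneg hr.le])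
  have e2 := hsq (⟨-r, 0⟩ : ℂ) (by
    rw [show (⟨-r, 0⟩ : ℂ) = ((-r : ℝ) : ℂ) from rfl, Complex.norm_real, norm_neg,
      Real.norm_of_nonneg hr.le])
  have e3 := hsq (⟨0, r⟩ : ℂ) (by
    rw [show (⟨0, r⟩ : ℂ) = (r : ℂ) * Complex.I by
      apply Complex.ext <;> simp]
    rw [norm_mul, Complex.norm_I, mul_one, Complex.norm_real, Real.norm_of_nonneg hr.le])
  have e4 := hsq (⟨0, -r⟩ : ℂ) (by
    rw [show (⟨0, -r⟩ : ℂ) = ((-r : ℝ) : ℂ) * Complex.I by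
      apply Complex.ext <;> simp]
    rw [norm_mul, Complex.norm_I, mul_one, Complex.norm_real, norm_neg,
      Real.norm_of_nonneg hr.le])
  simp only at e1 e2 e3 e4
  have h1 : z.re = z'.re := by nlinarith
  have h2 : z.im = z'.im := by nlinarith
  have h3 : z = z' := Complex.ext h1 h2
  refine ⟨h3, ?_⟩
  rw [h1, h2] at e1
  have : r ^ 2 = r' ^ 2 := by nlinarith
  exact (pow_left_inj₀ hr.le hr'.le (by norm_num)).1 this

/-- Components separated by the sign of a continuous function. -/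
theorem comp_sep {U : Set ℂ} {f : ℂ → ℝ} (hf : Continuous f) (h : ∀ z ∈ U, f z ≠ 0) {z z' : ℂ}
    (hzU : z' ∈ U) (hz : 0 < f z) (hz' : f z' < 0) (hzU' : z ∈ U) :
    connectedComponentIn U z ≠ connectedComponentIn U z' := by
  intro he
  have h1 : z' ∈ connectedComponentIn U z := by
    rw [he]; exact mem_connectedComponentIn hzU
  have h2 : z ∈ connectedComponentIn U z := mem_connectedComponentIn hzU'
  have h3 : IsPreconnected (f '' connectedComponentIn U z) :=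
    isPreconnected_connectedComponentIn.image f hf.continuousOn
  have h4 := h3.Icc_subset (mem_image_of_mem f h1) (mem_image_of_mem f h2)
  obtain ⟨w, hw, hw0⟩ := h4 ⟨hz'.le, hz.le⟩
  exact h w (connectedComponentIn_subset U z hw) hw0

theorem preconnected_h {I : Set ℝ} (hI : IsPreconnected I) (k : ℝ) :
    IsPreconnected ((fun x : ℝ => (⟨x, k⟩ : ℂ)) '' I) := by
  refine hI.image _ (Continuous.continuousOn ?_)
  have : (fun x : ℝ => (⟨x, k⟩ : ℂ)) = fun x : ℝ => (x : ℂ) + (k : ℂ) * Complex.I := by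
    funext x
    apply Complex.ext <;> simp
  rw [this]
  fun_prop

theorem preconnected_v {I : Set ℝ} (hI : IsPreconnected I) (k : ℝ) :
    IsPreconnected ((fun y : ℝ => (⟨k, y⟩ : ℂ)) '' I) := by
  refine hI.image _ (Continuous.continuousOn ?_)
  have : (fun y : ℝ => (⟨k, y⟩ : ℂ)) = fun y : ℝ => (k : ℂ) + (y : ℂ) * Complex.I := by
    funext x
    apply Complex.ext <;> simp
  rw [this]
  fun_prop

theorem continuous_Hf (e a b c : ℝ) : Continuous (Hf e a b c) := by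
  unfold Hf
  have h1 := Complex.continuous_re
  have h2 := Complex.continuous_im
  fun_prop

/-! ### The parameters -/

/-- The triples of parameters of the circles. -/
def Jx (A C : ℕ) : Finset (ℕ × ℕ × ℕ) :=
  Finset.Icc 1 (4 * C * A ^ 2) ×ˢ Finset.Icc 1 (C * A) ×ˢ Finset.Icc 1 C

theorem card_Jx (A C : ℕ) : (Jx A C).card = 4 * C ^ 3 * A ^ 3 := by
  simp [Jx]
  ring

/-- The height of the parabola over the column `x`. -/
def yj (j : ℕ × ℕ × ℕ) (x : ℕ) : ℕ := j.1 + j.2.1 * x + j.2.2 * x ^ 2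

/-- The function defining the circle. -/
noncomputable def Hj (ε e : ℝ) (C : ℕ) (j : ℕ × ℕ × ℕ) : ℂ → ℝ :=
  Hf e (c0 ε C j.1 j.2.1 j.2.2) (c1 ε j.2.1 j.2.2) (c2 ε j.2.2)

/-- The shifted parabola. -/
noncomputable def gj (ε : ℝ) (C : ℕ) (j : ℕ × ℕ × ℕ) (x : ℝ) : ℝ := gf ε C j.1 j.2.1 j.2.2 x

theorem Hj_eq (ε e : ℝ) (he : 0 < e) (C : ℕ) (j : ℕ × ℕ × ℕ) (x Y : ℝ) :
    Hj ε e C j ⟨x, e * Y⟩ = gj ε C j x - Y + c2 ε j.2.2 * e ^ 2 * Y ^ 2 := by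
  unfold Hj gj Hf gf
  simp only
  rw [mul_div_cancel_left₀ _ he.ne']
  ring

theorem c2_pos {ε : ℝ} (hε : 0 < ε) {c : ℕ} (hc : 1 ≤ c) : 0 < c2 ε c := by
  unfold c2
  have : (0 : ℝ) < c := by exact_mod_cast hc
  positivity

/-- The smallness conditions. -/
structure Small (A C : ℕ) (ε η : ℝ) (u : ℕ → ℕ → ℕ → ℝ) (e : ℝ) : Prop where
  e_pos : 0 < e
  ε_pos : 0 < ε
  η_pos : 0 < η
  η_le : η ≤ 1 / 4
  g_near : ∀ x₀ ≤ A, ∀ j ∈ Jx A C, ∀ x : ℝ, |x - x₀| ≤ η → |gj ε C j x - yj j x₀| < 1 / 4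
  u_lt : ∀ x₀ ≤ A, ∀ j ∈ Jx A C, |u x₀ j.2.1 j.2.2| < η
  e_small : e * (4 * C * A ^ 2 + 1) ≤ 1 / 8
  c_small : ∀ j ∈ Jx A C, c2 ε j.2.2 * e ^ 2 * (4 * C * A ^ 2 + 1) ^ 2 ≤ 1 / 8
  disc : ∀ j ∈ Jx A C, 4 * c0 ε C j.1 j.2.1 j.2.2 * c2 ε j.2.2 <
    c1 ε j.2.1 j.2.2 ^ 2 + 1 / e ^ 2
  gap : ∀ x₀ ≤ A, ∀ j ∈ Jx A C, ∀ j' ∈ Jx A C, yj j x₀ = yj j' x₀ → j ≠ j' →
    gj ε C j (x₀ + u x₀ j.2.1 j.2.2) + c2 ε j.2.2 * e ^ 2 * (4 * C * A ^ 2 + 1) ^ 2 <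
      gj ε C j' (x₀ + u x₀ j.2.1 j.2.2)

theorem mem_Jx {A C : ℕ} {j : ℕ × ℕ × ℕ} : j ∈ Jx A C ↔ (1 ≤ j.1 ∧ j.1 ≤ 4 * C * A ^ 2) ∧
    (1 ≤ j.2.1 ∧ j.2.1 ≤ C * A) ∧ 1 ≤ j.2.2 ∧ j.2.2 ≤ C := by
  simp [Jx]

theorem ev_small (κ γ : ℝ) (hγ : 0 < γ) : ∀ᶠ e in 𝓝[>] (0 : ℝ), κ * e ^ 2 < γ := by
  have h : Tendsto (fun e : ℝ => κ * e ^ 2) (𝓝 0) (𝓝 (κ * 0 ^ 2)) :=
    (continuous_const.mul (continuous_pow 2)).tendsto 0
  rw [zero_pow (by norm_num), mul_zero] at h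
  exact (h.eventually_lt_const hγ).filter_mono nhdsWithin_le_nhds

theorem ev_small1 (κ γ : ℝ) (hγ : 0 < γ) : ∀ᶠ e in 𝓝[>] (0 : ℝ), κ * e < γ := by
  have h : Tendsto (fun e : ℝ => κ * e) (𝓝 0) (𝓝 (κ * 0)) :=
    (continuous_const.mul continuous_id).tendsto 0
  rw [mul_zero] at h
  exact (h.eventually_lt_const hγ).filter_mono nhdsWithin_le_nhds

theorem exists_small (hEP : StEP) (A C : ℕ) (hA : 1 ≤ A) (hC : 1 ≤ C) :
    ∃ (ε η : ℝ) (u : ℕ → ℕ → ℕ → ℝ) (e : ℝ), Small A C ε η u e := by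
  obtain ⟨ε, η, u, hε, hη, hη4, h1, h2, h3⟩ := hEP A C hA hC
  refine ⟨ε, η, u, ?_⟩
  have hA1 : ∀ᶠ e in 𝓝[>] (0 : ℝ), (4 * C * A ^ 2 + 1 : ℝ) * e < 1 / 8 :=
    ev_small1 _ _ (by norm_num)
  have hA2 : ∀ᶠ e in 𝓝[>] (0 : ℝ), ∀ j ∈ Jx A C,
      c2 ε j.2.2 * (4 * C * A ^ 2 + 1) ^ 2 * e ^ 2 < 1 / 8 :=
    (Filter.eventually_all_finset _).2 fun j _ => ev_small _ _ (by norm_num)
  have hA3 : ∀ᶠ e in 𝓝[>] (0 : ℝ), ∀ j ∈ Jx A C,
      4 * c0 ε C j.1 j.2.1 j.2.2 * c2 ε j.2.2 * e ^ 2 < 1 :=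
    (Filter.eventually_all_finset _).2 fun j _ => ev_small _ _ (by norm_num)
  have hA4 : ∀ᶠ e in 𝓝[>] (0 : ℝ), ∀ x₀ ∈ Finset.range (A + 1), ∀ j ∈ Jx A C, ∀ j' ∈ Jx A C,
      (yj j x₀ = yj j' x₀ → j ≠ j' →
      c2 ε j.2.2 * (4 * C * A ^ 2 + 1) ^ 2 * e ^ 2 <
        gj ε C j' (x₀ + u x₀ j.2.1 j.2.2) - gj ε C j (x₀ + u x₀ j.2.1 j.2.2)) := by
    refine (Filter.eventually_all_finset _).2 fun x₀ hx₀ => ?_
    refine (Filter.eventually_all_finset _).2 fun j hj => ?_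
    refine (Filter.eventually_all_finset _).2 fun j' hj' => ?_
    by_cases hh : yj j x₀ = yj j' x₀ ∧ j ≠ j'
    · have hne : (j.2.1, j.2.2) ≠ (j'.2.1, j'.2.2) := by
        intro h
        apply hh.2
        have hb : j.2 = j'.2 := h
        have ha : j.1 = j'.1 := by
          have := hh.1
          unfold yj at this
          rw [hb] at this
          omega
        exact Prod.ext ha hb
      rw [mem_Jx] at hj hj'
      have hx : x₀ ≤ A := by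
        rw [Finset.mem_range] at hx₀; omega
      have := h3 x₀ j.1 j.2.1 j.2.2 j'.1 j'.2.1 j'.2.2 hx hj.2.1.2 hj.2.2.2 hj'.2.1.2 hj'.2.2.2
        hh.1 hne
      have h5 := ev_small (c2 ε j.2.2 * (4 * C * A ^ 2 + 1) ^ 2)
        (gj ε C j' (x₀ + u x₀ j.2.1 j.2.2) - gj ε C j (x₀ + u x₀ j.2.1 j.2.2)) (sub_pos.2 this)
      filter_upwards [h5] with e he _ _
      exact he
    · filter_upwards with e h6 h7
      exact absurd ⟨h6, h7⟩ hh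
  obtain ⟨e, ⟨⟨⟨he1, he2⟩, he3⟩, he4⟩, he5⟩ :=
    ((((hA1.and hA2).and hA3).and hA4).and self_mem_nhdsWithin).exists
  have he0 : 0 < e := he5
  refine ⟨e, he0, hε, hη, hη4, ?_, ?_, ?_, ?_, ?_, ?_⟩
  · intro x₀ hx₀ j hj x hx
    rw [mem_Jx] at hj
    have := h1 x₀ j.1 j.2.1 j.2.2 hx₀ hj.1.2 hj.2.1.2 hj.2.2.2 x hx
    unfold gj yj
    push_cast
    exact this
  · intro x₀ hx₀ j hj
    rw [mem_Jx] at hj
    exact h2 x₀ j.2.1 j.2.2 hx₀ hj.2.1.2 hj.2.2.2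
  · rw [mul_comm]; exact he1.le
  · intro j hj
    have := he2 j hj
    rw [mul_right_comm]; exact this.le
  · intro j hj
    have h5 := he3 j hj
    have h6 : 4 * c0 ε C j.1 j.2.1 j.2.2 * c2 ε j.2.2 < 1 / e ^ 2 := by
      rw [lt_div_iff₀ (by positivity)]
      exact h5
    have h7 : 0 ≤ c1 ε j.2.1 j.2.2 ^ 2 := sq_nonneg _
    linarith
  · intro x₀ hx₀ j hj j' hj' hy hne
    have := he4 x₀ (by rw [Finset.mem_range]; omega) j hj j' hj' hy hne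
    rw [mul_right_comm] at this
    linarith

end Pool.Agent.Helper97.MC
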