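import Pool.Agent.Helper97.MC.Co1

/-!
# Many cells in an arrangement of circles: the configuration, part 2 (the regions)
-/

set_option autoImplicit false

namespace Pool.Agent.Helper97.MC

open Set Filter Topology

section

variable {A C : ℕ} {ε η : ℝ} {u : ℕ → ℕ → ℕ → ℝ} {e : ℝ}

/-- Below. -/
theorem Small.pos (S : Small A C ε η u e) {x₀ : ℕ} (hx₀ : x₀ ≤ A) {j : ℕ × ℕ × ℕ}
    (hj : j ∈ Jx A C) {x Y : ℝ} (hx : |x - x₀| ≤ η) (hY : Y ≤ yj j x₀ - 1 / 2) :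
    0 < Hj ε e C j ⟨x, e * Y⟩ := by
  rw [Hj_eq ε e S.e_pos]
  have h1 := abs_lt.1 (S.g_near x₀ hx₀ j hj x hx)
  have h2 : 0 < c2 ε j.2.2 := c2_pos S.ε_pos (mem_Jx.1 hj).2.2.1
  have h3 : 0 ≤ c2 ε j.2.2 * e ^ 2 * Y ^ 2 := by positivity
  linarith [h1.1]

/-- The quadratic term is small. -/
theorem Small.quad (S : Small A C ε η u e) {j : ℕ × ℕ × ℕ}
    (hj : j ∈ Jx A C) {Y : ℝ} (hY0 : 0 ≤ Y) (hY : Y ≤ 4 * C * A ^ 2 + 1) :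
    c2 ε j.2.2 * e ^ 2 * Y ^ 2 ≤ c2 ε j.2.2 * e ^ 2 * (4 * C * A ^ 2 + 1) ^ 2 := by
  have h2 : 0 < c2 ε j.2.2 := c2_pos S.ε_pos (mem_Jx.1 hj).2.2.1
  have := S.e_pos
  gcongr

/-- Above. -/
theorem Small.neg (S : Small A C ε η u e) {x₀ : ℕ} (hx₀ : x₀ ≤ A) {j : ℕ × ℕ × ℕ}
    (hj : j ∈ Jx A C) {x Y : ℝ} (hx : |x - x₀| ≤ η) (hY : yj j x₀ + 1 / 2 ≤ Y)
    (hY1 : Y ≤ 4 * C * A ^ 2 + 1) :
    Hj ε e C j ⟨x, e * Y⟩ < 0 := by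
  rw [Hj_eq ε e S.e_pos]
  have h1 := abs_lt.1 (S.g_near x₀ hx₀ j hj x hx)
  have h0 : (0 : ℝ) ≤ yj j x₀ := by positivity
  have h3 := S.quad hj (by linarith : 0 ≤ Y) hY1
  have h4 := S.c_small j hj
  linarith [h1.2]

/-- Monotonicity. -/
theorem Small.mono (S : Small A C ε η u e) {j : ℕ × ℕ × ℕ}
    (hj : j ∈ Jx A C) {x Y Y' : ℝ} (hY0 : 0 ≤ Y) (hYY : Y < Y')
    (hY1 : Y' ≤ 4 * C * A ^ 2 + 1) :
    Hj ε e C j ⟨x, e * Y'⟩ < Hj ε e C j ⟨x, e * Y⟩ := by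
  rw [Hj_eq ε e S.e_pos, Hj_eq ε e S.e_pos]
  have h2 : 0 < c2 ε j.2.2 := c2_pos S.ε_pos (mem_Jx.1 hj).2.2.1
  have h4 := S.c_small j hj
  set M : ℝ := 4 * C * A ^ 2 + 1 with hM
  have hM1 : 1 ≤ M := by
    rw [hM]
    have : (0 : ℝ) ≤ 4 * C * A ^ 2 := by positivity
    linarith
  set q : ℝ := c2 ε j.2.2 * e ^ 2 with hq
  have hq0 : 0 ≤ q := by
    rw [hq]; positivity
  have h5 : q * (Y + Y') ≤ 1 / 4 := by
    have : q * (Y + Y') ≤ q * (2 * M ^ 2) := by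
      apply mul_le_mul_of_nonneg_left _ hq0
      nlinarith
    linarith
  have h6 : (Y' - Y) * (1 - q * (Y + Y')) > 0 := by
    apply mul_pos
    · linarith
    · linarith
  nlinarith [h6]

/-- The witness. -/
theorem Small.witness (S : Small A C ε η u e) {x₀ : ℕ} (hx₀ : x₀ ≤ A) {j : ℕ × ℕ × ℕ}
    (hj : j ∈ Jx A C) (hy1 : 1 ≤ yj j x₀) (hy : yj j x₀ ≤ 4 * C * A ^ 2) :
    ∃ Y : ℝ, (yj j x₀ : ℝ) - 1 / 2 < Y ∧ Y < yj j x₀ + 1 / 2 ∧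
      Hj ε e C j ⟨x₀ + u x₀ j.2.1 j.2.2, e * Y⟩ = 0 ∧
      (∀ j' ∈ Jx A C, j' ≠ j → yj j x₀ ≤ yj j' x₀ →
        0 < Hj ε e C j' ⟨x₀ + u x₀ j.2.1 j.2.2, e * Y⟩) ∧
      ∀ j' ∈ Jx A C, yj j' x₀ < yj j x₀ →
        Hj ε e C j' ⟨x₀ + u x₀ j.2.1 j.2.2, e * Y⟩ < 0 := by
  set x : ℝ := x₀ + u x₀ j.2.1 j.2.2 with hxdef
  have hx : |x - x₀| ≤ η := by
    rw [hxdef, add_sub_cancel_left]
    exact (S.u_lt x₀ hx₀ j hj).le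
  have hyM : (yj j x₀ : ℝ) + 1 / 2 ≤ 4 * C * A ^ 2 + 1 := by
    have : (yj j x₀ : ℝ) ≤ 4 * C * A ^ 2 := by exact_mod_cast hy
    linarith
  have hy1' : (1 : ℝ) ≤ yj j x₀ := by exact_mod_cast hy1
  have hp := S.pos hx₀ hj (x := x) (Y := (yj j x₀ : ℝ) - 1 / 2) hx le_rfl
  have hn := S.neg hx₀ hj (x := x) (Y := (yj j x₀ : ℝ) + 1 / 2) hx le_rfl hyM
  have hcont : ContinuousOn (fun Y : ℝ => Hj ε e C j ⟨x, e * Y⟩)
      (Icc ((yj j x₀ : ℝ) - 1 / 2) ((yj j x₀ : ℝ) + 1 / 2)) := by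
    have : (fun Y : ℝ => Hj ε e C j ⟨x, e * Y⟩) =
        fun Y : ℝ => gj ε C j x - Y + c2 ε j.2.2 * e ^ 2 * Y ^ 2 := by
      funext Y
      exact Hj_eq ε e S.e_pos C j x Y
    rw [this]
    fun_prop
  obtain ⟨Y, hY, hY0⟩ := intermediate_value_Icc' (by linarith) hcont ⟨hn.le, hp.le⟩
  simp only at hY0
  have hne1 : Y ≠ (yj j x₀ : ℝ) - 1 / 2 := by
    rintro rfl
    exact hp.ne' hY0
  have hne2 : Y ≠ (yj j x₀ : ℝ) + 1 / 2 := by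
    rintro rfl
    exact hn.ne hY0
  have hY1 : (yj j x₀ : ℝ) - 1 / 2 < Y := lt_of_le_of_ne hY.1 (Ne.symm hne1)
  have hY2 : Y < (yj j x₀ : ℝ) + 1 / 2 := lt_of_le_of_ne hY.2 hne2
  refine ⟨Y, hY1, hY2, hY0, ?_, ?_⟩
  · intro j' hj' hne hle
    rcases hle.eq_or_lt with heq | hlt
    · have hg := S.gap x₀ hx₀ j hj j' hj' heq hne.symm
      rw [Hj_eq ε e S.e_pos] at hY0 ⊢
      have h3 := S.quad hj (Y := Y) (by linarith) (by linarith)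
      have h2 : 0 < c2 ε j'.2.2 := c2_pos S.ε_pos (mem_Jx.1 hj').2.2.1
      have h4 : 0 ≤ c2 ε j'.2.2 * e ^ 2 * Y ^ 2 := by positivity
      rw [← hxdef] at hg
      linarith
    · apply S.pos hx₀ hj' hx
      have : (yj j x₀ : ℝ) + 1 ≤ yj j' x₀ := by exact_mod_cast hlt
      linarith
  · intro j' hj' hlt
    apply S.neg hx₀ hj' hx _ (by linarith)
    have : (yj j' x₀ : ℝ) + 1 ≤ yj j x₀ := by exact_mod_cast hlt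
    linarith

/-- The region below the grid point. -/
def Rg (A C : ℕ) (ε η e : ℝ) (x₀ y₀ : ℕ) : Set ℂ :=
  {z | |z.re - x₀| < η ∧ e * (y₀ - 1 / 2) ≤ z.im ∧ z.im ≤ e * (y₀ + 1 / 2) ∧
    ∀ j ∈ Jx A C, y₀ ≤ yj j x₀ → 0 < Hj ε e C j z}

theorem eta_eq {e : ℝ} (he : 0 < e) (z : ℂ) : z = ⟨z.re, e * (z.im / e)⟩ := by
  apply Complex.ext
  · rfl
  · simp only
    rw [mul_div_cancel₀ _ he.ne']

theorem Small.base_mem (S : Small A C ε η u e) {x₀ y₀ : ℕ} (hx₀ : x₀ ≤ A) {x : ℝ}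
    (hx : |x - x₀| < η) : (⟨x, e * (y₀ - 1 / 2)⟩ : ℂ) ∈ Rg A C ε η e x₀ y₀ := by
  have he := S.e_pos
  refine ⟨hx, le_rfl, ?_, ?_⟩
  · simp only
    apply mul_le_mul_of_nonneg_left _ he.le
    linarith
  · intro j hj hle
    apply S.pos hx₀ hj hx.le
    have : (y₀ : ℝ) ≤ yj j x₀ := by exact_mod_cast hle
    linarith

theorem Small.preconnected (S : Small A C ε η u e) {x₀ y₀ : ℕ} (hx₀ : x₀ ≤ A) (hy0 : 1 ≤ y₀)
    (hy : y₀ ≤ 4 * C * A ^ 2) : IsPreconnected (Rg A C ε η e x₀ y₀) := by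
  have he := S.e_pos
  have hη := S.η_pos
  have hy0' : (1 : ℝ) ≤ y₀ := by exact_mod_cast hy0
  have hy' : (y₀ : ℝ) ≤ 4 * C * A ^ 2 := by exact_mod_cast hy
  refine isPreconnected_of_forall (⟨(x₀ : ℝ), e * (y₀ - 1 / 2)⟩ : ℂ) ?_
  intro z hz
  refine ⟨(fun x : ℝ => (⟨x, e * (y₀ - 1 / 2)⟩ : ℂ)) '' {x : ℝ | |x - x₀| < η} ∪
    (fun y : ℝ => (⟨z.re, y⟩ : ℂ)) '' Icc (e * (y₀ - 1 / 2)) z.im, ?_, ?_, ?_, ?_⟩
  · rintro w (⟨x, hx, rfl⟩ | ⟨y, hy1, rfl⟩)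
    · exact S.base_mem hx₀ hx
    · refine ⟨hz.1, hy1.1, hy1.2.trans hz.2.2.1, ?_⟩
      intro j hj hle
      rcases hy1.2.eq_or_lt with h | h
      · rw [h]
        exact hz.2.2.2 j hj hle
      · have h1 := hz.2.2.2 j hj hle
        have e1 : (⟨z.re, y⟩ : ℂ) = ⟨z.re, e * (y / e)⟩ := by
          rw [mul_div_cancel₀ _ he.ne']
        show 0 < Hj ε e C j ⟨z.re, y⟩
        rw [e1]
        rw [eta_eq he z] at h1
        refine h1.trans ?_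
        refine S.mono hj ?_ ?_ ?_
        · rw [le_div_iff₀ he]
          have := hy1.1
          nlinarith
        · exact div_lt_div_of_pos_right h he
        · rw [div_le_iff₀ he]
          have := hz.2.2.1
          nlinarith
  · left
    exact ⟨x₀, by simp [hη], rfl⟩
  · right
    exact ⟨z.im, ⟨hz.2.1, le_rfl⟩, rfl⟩
  · refine IsPreconnected.union (⟨z.re, e * (y₀ - 1 / 2)⟩ : ℂ) ?_ ?_ ?_ ?_
    · exact ⟨z.re, hz.1, rfl⟩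
    · exact ⟨e * (y₀ - 1 / 2), ⟨le_rfl, hz.2.1⟩, rfl⟩
    · refine preconnected_h ?_ _
      have : {x : ℝ | |x - x₀| < η} = Metric.ball (x₀ : ℝ) η := by
        ext x
        rw [Metric.mem_ball, Real.dist_eq]
        rfl
      rw [this]
      exact (convex_ball _ _).isPreconnected
    · exact preconnected_v isPreconnected_Icc _

/-- The vertical segment below the witness. -/
theorem Small.seg (S : Small A C ε η u e) {x₀ : ℕ} (hx₀ : x₀ ≤ A) {j : ℕ × ℕ × ℕ}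
    (hj : j ∈ Jx A C) (hy1 : 1 ≤ yj j x₀) (hy : yj j x₀ ≤ 4 * C * A ^ 2) {Y : ℝ}
    (h2 : Y < yj j x₀ + 1 / 2)
    (h3 : Hj ε e C j ⟨x₀ + u x₀ j.2.1 j.2.2, e * Y⟩ = 0)
    (h4 : ∀ j' ∈ Jx A C, j' ≠ j → yj j x₀ ≤ yj j' x₀ →
        0 < Hj ε e C j' ⟨x₀ + u x₀ j.2.1 j.2.2, e * Y⟩) {Y' : ℝ}
    (h5 : (yj j x₀ : ℝ) - 1 / 2 ≤ Y') (h6 : Y' < Y) :
    (⟨x₀ + u x₀ j.2.1 j.2.2, e * Y'⟩ : ℂ) ∈ Rg A C ε η e x₀ (yj j x₀) := by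
  have he := S.e_pos
  have hy' : (yj j x₀ : ℝ) ≤ 4 * C * A ^ 2 := by exact_mod_cast hy
  have hy1' : (1 : ℝ) ≤ yj j x₀ := by exact_mod_cast hy1
  refine ⟨?_, ?_, ?_, ?_⟩
  · simp only
    rw [add_sub_cancel_left]
    exact S.u_lt x₀ hx₀ j hj
  · exact mul_le_mul_of_nonneg_left h5 he.le
  · exact mul_le_mul_of_nonneg_left (by linarith) he.le
  · intro j' hj' hle
    have hm := S.mono hj' (x := x₀ + u x₀ j.2.1 j.2.2) (Y := Y') (Y' := Y) (by linarith) h6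
      (by linarith)
    by_cases hjj : j' = j
    · rw [hjj] at hm ⊢
      rwa [h3] at hm
    · exact (h4 j' hj' hjj hle).trans hm

/-- The witness is adherent to the region. -/
theorem Small.closure (S : Small A C ε η u e) {x₀ : ℕ} (hx₀ : x₀ ≤ A) {j : ℕ × ℕ × ℕ}
    (hj : j ∈ Jx A C) (hy1 : 1 ≤ yj j x₀) (hy : yj j x₀ ≤ 4 * C * A ^ 2) {Y : ℝ}
    (h1 : (yj j x₀ : ℝ) - 1 / 2 < Y) (h2 : Y < yj j x₀ + 1 / 2)
    (h3 : Hj ε e C j ⟨x₀ + u x₀ j.2.1 j.2.2, e * Y⟩ = 0)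
    (h4 : ∀ j' ∈ Jx A C, j' ≠ j → yj j x₀ ≤ yj j' x₀ →
        0 < Hj ε e C j' ⟨x₀ + u x₀ j.2.1 j.2.2, e * Y⟩) :
    (⟨x₀ + u x₀ j.2.1 j.2.2, e * Y⟩ : ℂ) ∈ closure (Rg A C ε η e x₀ (yj j x₀)) := by
  set x : ℝ := x₀ + u x₀ j.2.1 j.2.2 with hx
  have hc : Continuous (fun Y : ℝ => (⟨x, e * Y⟩ : ℂ)) := by
    have : (fun Y : ℝ => (⟨x, e * Y⟩ : ℂ)) = fun Y : ℝ => (x : ℂ) + ((e * Y : ℝ) : ℂ) * Complex.I := by
      funext Y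
      apply Complex.ext <;> simp
    rw [this]
    fun_prop
  have hcl : Y ∈ _root_.closure (Ico ((yj j x₀ : ℝ) - 1 / 2) Y) := by
    rw [closure_Ico h1.ne]
    exact ⟨h1.le, le_rfl⟩
  have := image_closure_subset_closure_image hc (mem_image_of_mem _ hcl)
  refine closure_mono ?_ this
  rintro w ⟨Y', hY', rfl⟩
  exact S.seg hx₀ hj hy1 hy h2 h3 h4 hY'.1 hY'.2

end

end Pool.Agent.Helper97.MC
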