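import Mathlib

/-!
# Many cells in an arrangement of circles: definitions

The Euclidean plane is `ℂ`.
-/

set_option autoImplicit false

namespace Pool.Agent.Helper97.MC

/-- A circle of the Euclidean plane. -/
def IsCircle (C : Set ℂ) : Prop := ∃ (z : ℂ) (r : ℝ), 0 < r ∧ C = Metric.sphere z r

/-- The vertices of the arrangement: the points lying on at least two circles. -/
def vertices (𝒞 : Set (Set ℂ)) : Set ℂ :=
  {p | ∃ C ∈ 𝒞, ∃ D ∈ 𝒞, C ≠ D ∧ p ∈ C ∧ p ∈ D}

/-- The edges of the arrangement: the connected components of the circles after removing the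
vertices. -/
def edges (𝒞 : Set (Set ℂ)) : Set (Set ℂ) :=
  {e | ∃ C ∈ 𝒞, ∃ p ∈ C \ vertices 𝒞, e = connectedComponentIn (C \ vertices 𝒞) p}

/-- The cells of the arrangement: the connected components of the complement of the union of the
circles. -/
def cells (𝒞 : Set (Set ℂ)) : Set (Set ℂ) :=
  {c | ∃ p ∈ (⋃₀ 𝒞)ᶜ, c = connectedComponentIn (⋃₀ 𝒞)ᶜ p}

/-- The complexity of a cell: the number of vertices and edges of the arrangement on its
boundary. -/
noncomputable def complexity (𝒞 : Set (Set ℂ)) (c : Set ℂ) : ℕ :=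
  {v | v ∈ vertices 𝒞 ∧ v ∈ frontier c}.ncard + {e | e ∈ edges 𝒞 ∧ e ⊆ frontier c}.ncard

/-- The possible values of the total complexity of `m` distinct cells of an arrangement of `n`
distinct circles. -/
def totals (m n : ℕ) : Set ℕ :=
  {k | ∃ 𝒞 S : Finset (Set ℂ), 𝒞.card = n ∧ (∀ C ∈ 𝒞, IsCircle C) ∧ S.card = m ∧
    (∀ c ∈ S, c ∈ cells (𝒞 : Set (Set ℂ))) ∧ k = ∑ c ∈ S, complexity (𝒞 : Set (Set ℂ)) c}

/-- The maximum `K(m, n)` of the total complexity of `m` distinct cells in an arrangement of `n`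
distinct circles. -/
noncomputable def K (m n : ℕ) : ℕ := sSup (totals m n)

end Pool.Agent.Helper97.MC
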