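import Pool.Agent.Helper97.MC.St

/-!
# Many cells in an arrangement of circles, module BD: finiteness of vertices and edges
-/

set_option autoImplicit false

namespace Pool.Agent.Helper97.MC

namespace MBD

open Set

/-- Two distinct circles meet in at most two points. -/
theorem inter_two {C D : Set ℂ} (hC : IsCircle C) (hD : IsCircle D) (hne : C ≠ D) :
    ∃ F : Finset ℂ, F.card ≤ 2 ∧ C ∩ D ⊆ F := by
  classical
  obtain ⟨z, r, hr, rfl⟩ := hC
  obtain ⟨w, s, hs, rfl⟩ := hD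
  by_cases h : (Metric.sphere z r ∩ Metric.sphere w s).Subsingleton
  · rcases h.eq_empty_or_singleton with h | ⟨p, h⟩
    · exact ⟨∅, by simp, by rw [h]; simp⟩
    · exact ⟨{p}, by simp, by rw [h]; simp⟩
  · rw [Set.not_subsingleton_iff] at h
    obtain ⟨p₁, h₁, p₂, h₂, h12⟩ := h
    refine ⟨{p₁, p₂}, Finset.card_le_two, ?_⟩
    intro p hp
    have hzw : z ≠ w := by
      rintro rfl
      apply hne
      have e1 : dist p z = r := hp.1
      have e2 : dist p z = s := hp.2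
      rw [← e1, ← e2]
    have := EuclideanGeometry.eq_of_dist_eq_of_dist_eq_of_finrank_eq_two
      Complex.finrank_real_complex hzw h12 h₁.1 h₂.1 hp.1 h₁.2 h₂.2 hp.2
    simpa using this

theorem vert (𝒞 : Finset (Set ℂ)) (h𝒞 : ∀ C ∈ 𝒞, IsCircle C) :
    ∃ F : Finset ℂ, F.card ≤ 𝒞.card * 𝒞.card * 2 ∧ vertices (𝒞 : Set (Set ℂ)) ⊆ F := by
  classical
  have h : ∀ x : Set ℂ × Set ℂ, ∃ F : Finset ℂ, F.card ≤ 2 ∧
      (x ∈ (𝒞 ×ˢ 𝒞).filter (fun x => x.1 ≠ x.2) → x.1 ∩ x.2 ⊆ F) := by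
    intro x
    by_cases hx : x ∈ (𝒞 ×ˢ 𝒞).filter (fun x => x.1 ≠ x.2)
    · have hx' := hx
      rw [Finset.mem_filter, Finset.mem_product] at hx
      obtain ⟨F, h1, h2⟩ := inter_two (h𝒞 _ hx.1.1) (h𝒞 _ hx.1.2) hx.2
      exact ⟨F, h1, fun _ => h2⟩
    · exact ⟨∅, by simp, fun h => absurd h hx⟩
  choose F hF hF2 using h
  refine ⟨((𝒞 ×ˢ 𝒞).filter (fun x => x.1 ≠ x.2)).biUnion F, ?_, ?_⟩
  · refine (Finset.card_biUnion_le_card_mul _ _ 2 fun x _ => hF x).trans ?_
    refine Nat.mul_le_mul_right 2 ?_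
    refine (Finset.card_filter_le _ _).trans ?_
    rw [Finset.card_product]
  · rintro p ⟨C, hC, D, hD, hne, hpC, hpD⟩
    rw [Finset.mem_coe, Finset.mem_biUnion]
    have hx : ((C, D) : Set ℂ × Set ℂ) ∈ (𝒞 ×ˢ 𝒞).filter (fun x => x.1 ≠ x.2) := by
      rw [Finset.mem_filter, Finset.mem_product]
      exact ⟨⟨hC, hD⟩, hne⟩
    exact ⟨(C, D), hx, hF2 (C, D) hx ⟨hpC, hpD⟩⟩

/-- A circle minus a set covered by `N` points has at most `N + 1` components. -/
theorem comps (z : ℂ) (r : ℝ) (hr : 0 < r) (V : Set ℂ) (F : Finset ℂ) (hV : V ⊆ F) :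
    ∃ G : Finset (Set ℂ), G.card ≤ F.card + 1 ∧ ∀ p ∈ Metric.sphere z r \ V,
      connectedComponentIn (Metric.sphere z r \ V) p ∈ G := by
  classical
  have hang : ∀ p : ℂ, ∃ θ : ℝ, p ∈ Metric.sphere z r → θ ∈ Ioc 0 (2 * Real.pi) ∧
      circleMap z r θ = p := by
    intro p
    by_cases hp : p ∈ Metric.sphere z r
    · rw [← abs_of_pos hr, ← image_circleMap_Ioc] at hp
      obtain ⟨θ, h1, h2⟩ := hp
      exact ⟨θ, fun _ => ⟨h1, h2⟩⟩
    · exact ⟨0, fun h => absurd h hp⟩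
  choose θ hθ using hang
  have hinj : ∀ x ∈ Ioc (0 : ℝ) (2 * Real.pi), ∀ y ∈ Ioc (0 : ℝ) (2 * Real.pi),
      circleMap z r x = circleMap z r y → x = y := by
    have h := injOn_circleMap_of_abs_sub_le (a := 0) (b := 2 * Real.pi) (R := r) (c := z) hr.ne'
      (by rw [zero_sub, abs_neg, abs_of_pos (by positivity)])
    rw [uIoc_of_le (by positivity)] at h
    exact fun x hx y hy hxy => h hx hy hxy
  set T : Finset ℝ := F.image θ with hT
  have hTc : T.card ≤ F.card := Finset.card_image_le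
  -- a point of the circle whose angle is not in `T` is not in `V`
  have hnV : ∀ x ∈ Ioc (0 : ℝ) (2 * Real.pi), x ∉ T → circleMap z r x ∉ V := by
    intro x hx hxT hxV
    apply hxT
    have hm : circleMap z r x ∈ Metric.sphere z r := circleMap_mem_sphere z hr.le x
    obtain ⟨h1, h2⟩ := hθ _ hm
    rw [hT, Finset.mem_image]
    exact ⟨circleMap z r x, hV hxV, hinj _ h1 _ hx h2⟩
  -- remove from the list the points which are not in `V`
  set T' : Finset ℝ := T.filter (fun t => circleMap z r t ∈ V) with hT'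
  have hT'c : T'.card ≤ F.card := (Finset.card_filter_le _ _).trans hTc
  have hnV' : ∀ x ∈ Ioc (0 : ℝ) (2 * Real.pi), x ∉ T' → circleMap z r x ∉ V := by
    intro x hx hxT hxV
    by_cases h : x ∈ T
    · exact hxT (by rw [hT', Finset.mem_filter]; exact ⟨h, hxV⟩)
    · exact hnV x hx h hxV
  let N : ℝ → ℕ := fun x => (T'.filter (fun t => t < x)).card
  have hN : ∀ x, N x < F.card + 1 := fun x =>
    Nat.lt_succ_of_le ((Finset.card_filter_le _ _).trans hT'c)
  -- two points with the same number are in the same component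
  have key : ∀ p ∈ Metric.sphere z r \ V, ∀ q ∈ Metric.sphere z r \ V, θ p ≤ θ q →
      N (θ p) = N (θ q) → connectedComponentIn (Metric.sphere z r \ V) p =
        connectedComponentIn (Metric.sphere z r \ V) q := by
    intro p hp q hq hpq hNN
    obtain ⟨hp1, hp2⟩ := hθ p hp.1
    obtain ⟨hq1, hq2⟩ := hθ q hq.1
    have hpT : θ p ∉ T' := by
      intro h
      rw [hT', Finset.mem_filter, hp2] at h
      exact hp.2 h.2
    have hqT : θ q ∉ T' := by
      intro h
      rw [hT', Finset.mem_filter, hq2] at h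
      exact hq.2 h.2
    have hsub : circleMap z r '' Icc (θ p) (θ q) ⊆ Metric.sphere z r \ V := by
      rintro _ ⟨x, hx, rfl⟩
      refine ⟨circleMap_mem_sphere z hr.le x, ?_⟩
      refine hnV' x ⟨hp1.1.trans_le hx.1, hx.2.trans hq1.2⟩ ?_
      intro hxT
      have h1 : θ p < x := lt_of_le_of_ne hx.1 (fun h => hpT (h ▸ hxT))
      have h2 : x < θ q := lt_of_le_of_ne hx.2 (fun h => hqT (h ▸ hxT))
      have h3 : N (θ p) < N (θ q) := by
        apply Finset.card_lt_card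
        refine ⟨?_, ?_⟩
        · intro t ht
          rw [Finset.mem_filter] at ht ⊢
          exact ⟨ht.1, ht.2.trans_le hpq⟩
        · intro h
          have h4 : x ∈ T'.filter (fun t => t < θ q) := Finset.mem_filter.2 ⟨hxT, h2⟩
          have h5 := h h4
          rw [Finset.mem_filter] at h5
          exact absurd h5.2 (not_lt.2 h1.le)
      omega
    have hpre : IsPreconnected (circleMap z r '' Icc (θ p) (θ q)) :=
      isPreconnected_Icc.image _ (continuous_circleMap z r).continuousOn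
    have hpm : p ∈ circleMap z r '' Icc (θ p) (θ q) := ⟨θ p, ⟨le_rfl, hpq⟩, hp2⟩
    have hqm : q ∈ circleMap z r '' Icc (θ p) (θ q) := ⟨θ q, ⟨hpq, le_rfl⟩, hq2⟩
    exact connectedComponentIn_eq (hpre.subset_connectedComponentIn hpm hsub hqm)
  have key' : ∀ p ∈ Metric.sphere z r \ V, ∀ q ∈ Metric.sphere z r \ V,
      N (θ p) = N (θ q) → connectedComponentIn (Metric.sphere z r \ V) p =
        connectedComponentIn (Metric.sphere z r \ V) q := by
    intro p hp q hq h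
    rcases le_total (θ p) (θ q) with h1 | h1
    · exact key p hp q hq h1 h
    · exact (key q hq p hp h1 h.symm).symm
  have hrep : ∀ k : ℕ, ∃ E : Set ℂ, ∀ p ∈ Metric.sphere z r \ V, N (θ p) = k →
      connectedComponentIn (Metric.sphere z r \ V) p = E := by
    intro k
    by_cases h : ∃ p ∈ Metric.sphere z r \ V, N (θ p) = k
    · obtain ⟨p, hp, hk⟩ := h
      exact ⟨connectedComponentIn (Metric.sphere z r \ V) p, fun q hq hqk =>
        key' q hq p hp (hqk.trans hk.symm)⟩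
    · exact ⟨∅, fun p hp hk => absurd ⟨p, hp, hk⟩ h⟩
  choose E hE using hrep
  refine ⟨(Finset.range (F.card + 1)).image E, ?_, ?_⟩
  · refine Finset.card_image_le.trans ?_
    rw [Finset.card_range]
  · intro p hp
    rw [Finset.mem_image]
    exact ⟨N (θ p), Finset.mem_range.2 (hN _), (hE _ p hp rfl).symm⟩

theorem edg (𝒞 : Finset (Set ℂ)) (h𝒞 : ∀ C ∈ 𝒞, IsCircle C) :
    ∃ G : Finset (Set ℂ), G.card ≤ 𝒞.card * (𝒞.card * 𝒞.card * 2 + 1) ∧
      edges (𝒞 : Set (Set ℂ)) ⊆ G := by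
  classical
  obtain ⟨F, hF, hF2⟩ := vert 𝒞 h𝒞
  have h : ∀ C : Set ℂ, ∃ G : Finset (Set ℂ), G.card ≤ F.card + 1 ∧
      (C ∈ 𝒞 → ∀ p ∈ C \ vertices (𝒞 : Set (Set ℂ)),
        connectedComponentIn (C \ vertices (𝒞 : Set (Set ℂ))) p ∈ G) := by
    intro C
    by_cases hC : C ∈ 𝒞
    · obtain ⟨z, r, hr, rfl⟩ := h𝒞 C hC
      obtain ⟨G, h1, h2⟩ := comps z r hr _ F hF2
      exact ⟨G, h1, fun _ => h2⟩
    · exact ⟨∅, by simp, fun h => absurd h hC⟩
  choose G hG hG2 using h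
  refine ⟨𝒞.biUnion G, ?_, ?_⟩
  · refine (Finset.card_biUnion_le_card_mul _ _ (F.card + 1) fun x _ => hG x).trans ?_
    exact Nat.mul_le_mul_left _ (Nat.add_le_add_right hF 1)
  · rintro _ ⟨C, hC, p, hp, rfl⟩
    rw [Finset.mem_coe, Finset.mem_biUnion]
    exact ⟨C, hC, hG2 C hC p hp⟩

end MBD

theorem hBD : StBD := by
  refine ⟨fun n => n * n * 2 + n * (n * n * 2 + 1), fun 𝒞 h𝒞 => ?_⟩
  obtain ⟨F, hF, hF2⟩ := MBD.vert 𝒞 h𝒞
  obtain ⟨G, hG, hG2⟩ := MBD.edg 𝒞 h𝒞
  refine ⟨F.finite_toSet.subset hF2, G.finite_toSet.subset hG2, ?_, ?_⟩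
  · have h := Set.ncard_le_ncard hF2 F.finite_toSet
    rw [Set.ncard_coe_finset] at h
    exact (h.trans hF).trans (Nat.le_add_right _ _)
  · have h := Set.ncard_le_ncard hG2 G.finite_toSet
    rw [Set.ncard_coe_finset] at h
    exact (h.trans hG).trans (Nat.le_add_left _ _)

end Pool.Agent.Helper97.MC
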