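import Pool.Agent.Helper97.MC.St

/-!
# Many cells in an arrangement of circles: module EP, the shifts
-/

set_option autoImplicit false

namespace Pool.Agent.Helper97.MC

open Filter Topology

namespace MEP

/-- the slope offset -/
noncomputable def w (C c : ℕ) : ℝ := Real.sqrt (((C : ℝ) - c) / (2 * C))

lemma w_nonneg (C c : ℕ) : 0 ≤ w C c := Real.sqrt_nonneg _

lemma w_lt_one (C c : ℕ) (hC : 1 ≤ C) : w C c < 1 := by
  unfold w
  have hC' : (1 : ℝ) ≤ C := by exact_mod_cast hC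
  have hc : (0 : ℝ) ≤ c := Nat.cast_nonneg c
  rw [Real.sqrt_lt' one_pos, div_lt_iff₀ (by positivity)]
  linarith

lemma w_sq (C c : ℕ) (hC : 1 ≤ C) (hc : c ≤ C) : w C c ^ 2 = ((C : ℝ) - c) / (2 * C) := by
  unfold w
  have hc' : (c : ℝ) ≤ C := by exact_mod_cast hc
  have hC' : (1 : ℝ) ≤ C := by exact_mod_cast hC
  exact Real.sq_sqrt (div_nonneg (by linarith) (by positivity))

/-- the value of `u / ε` -/
noncomputable def v (C x₀ b c : ℕ) : ℝ := -2 * ((b : ℝ) + 2 * c * x₀) + w C c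

lemma abs_v_lt (A C x₀ b c : ℕ) (hC : 1 ≤ C) (hx : x₀ ≤ A) (hb : b ≤ C * A) (hc : c ≤ C) :
    |v C x₀ b c| < 6 * C * A + 2 := by
  have h1 := w_nonneg C c
  have h2 := w_lt_one C c hC
  have hb' : (b : ℝ) ≤ C * A := by exact_mod_cast hb
  have hcx : (c : ℝ) * x₀ ≤ C * A := by exact_mod_cast Nat.mul_le_mul hc hx
  have hb0 : (0 : ℝ) ≤ b := Nat.cast_nonneg b
  have hcx0 : (0 : ℝ) ≤ (c : ℝ) * x₀ := by positivity
  unfold v
  rw [abs_lt]
  constructor <;> nlinarith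

/-- the difference of the two values, divided by `ε` -/
noncomputable def F (C x₀ b c b' c' : ℕ) (ε : ℝ) : ℝ :=
  (((b' : ℝ) + 2 * c' * x₀) - ((b : ℝ) + 2 * c * x₀)) * v C x₀ b c
    + ((c' : ℝ) - c) * ε * v C x₀ b c ^ 2
    + ((1 + 4 * ε * c') * (((b' : ℝ) + 2 * c' * x₀) + 2 * c' * (ε * v C x₀ b c)) ^ 2
      - (1 + 4 * ε * c) * (((b : ℝ) + 2 * c * x₀) + 2 * c * (ε * v C x₀ b c)) ^ 2)
    + ε * (((C : ℝ) - c') ^ 2 / (4 * C) - ((C : ℝ) - c) ^ 2 / (4 * C))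

/-- the difference divided by `ε ^ 2` for equal slopes `s` -/
noncomputable def G (C x₀ b c c' : ℕ) (ε : ℝ) : ℝ :=
  ((c' : ℝ) - c) * v C x₀ b c ^ 2
    + (4 * c' * (((b : ℝ) + 2 * c * x₀) + 2 * c' * (ε * v C x₀ b c)) ^ 2
      - 4 * c * (((b : ℝ) + 2 * c * x₀) + 2 * c * (ε * v C x₀ b c)) ^ 2)
    + ((4 * ((b : ℝ) + 2 * c * x₀) * c' * v C x₀ b c + 4 * (c' : ℝ) ^ 2 * ε * v C x₀ b c ^ 2)
      - (4 * ((b : ℝ) + 2 * c * x₀) * c * v C x₀ b c + 4 * (c : ℝ) ^ 2 * ε * v C x₀ b c ^ 2))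
    + (((C : ℝ) - c') ^ 2 / (4 * C) - ((C : ℝ) - c) ^ 2 / (4 * C))

lemma diff_eq (C x₀ a b c a' b' c' : ℕ) (ε : ℝ)
    (h : a + b * x₀ + c * x₀ ^ 2 = a' + b' * x₀ + c' * x₀ ^ 2) :
    gf ε C a' b' c' (x₀ + ε * v C x₀ b c) - gf ε C a b c (x₀ + ε * v C x₀ b c)
      = ε * F C x₀ b c b' c' ε := by
  have h' : (a : ℝ) + b * x₀ + c * x₀ ^ 2 = a' + b' * x₀ + c' * x₀ ^ 2 := by exact_mod_cast h
  have ha : (a' : ℝ) = a + b * x₀ + c * x₀ ^ 2 - b' * x₀ - c' * x₀ ^ 2 := by linarith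
  unfold gf c0 c1 c2 F
  rw [ha]
  generalize v C x₀ b c = t
  ring

lemma F_eq (C x₀ b c b' c' : ℕ) (ε : ℝ)
    (h : (b : ℝ) + 2 * c * x₀ = (b' : ℝ) + 2 * c' * x₀) :
    F C x₀ b c b' c' ε = ε * G C x₀ b c c' ε := by
  unfold F G
  rw [← h]
  generalize v C x₀ b c = t
  ring

lemma F_cont (C x₀ b c b' c' : ℕ) : Continuous (F C x₀ b c b' c') := by
  unfold F
  fun_prop

lemma G_cont (C x₀ b c c' : ℕ) : Continuous (G C x₀ b c c') := by
  unfold G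
  fun_prop

lemma F_zero (C x₀ b c b' c' : ℕ) (hC : 1 ≤ C) (h : b + 2 * c * x₀ ≠ b' + 2 * c' * x₀) :
    0 < F C x₀ b c b' c' 0 := by
  have h1 := w_nonneg C c
  have h2 := w_lt_one C c hC
  have e : F C x₀ b c b' c' 0 = (((b' : ℝ) + 2 * c' * x₀) - ((b : ℝ) + 2 * c * x₀))
      * ((((b' : ℝ) + 2 * c' * x₀) - ((b : ℝ) + 2 * c * x₀)) + w C c) := by
    unfold F v
    ring
  rw [e]
  rcases Nat.lt_or_gt_of_ne h with h | h
  · have h3 : (b : ℝ) + 2 * c * x₀ + 1 ≤ b' + 2 * c' * x₀ := by exact_mod_cast h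
    exact mul_pos (by linarith) (by linarith)
  · have h3 : (b' : ℝ) + 2 * c' * x₀ + 1 ≤ b + 2 * c * x₀ := by exact_mod_cast h
    exact mul_pos_of_neg_of_neg (by linarith) (by linarith)

lemma G_zero (C x₀ b c c' : ℕ) (hC : 1 ≤ C) (hc : c ≤ C) (h : c ≠ c') :
    0 < G C x₀ b c c' 0 := by
  have hC' : (1 : ℝ) ≤ C := by exact_mod_cast hC
  have hw := w_sq C c hC hc
  have e : G C x₀ b c c' 0 = ((c' : ℝ) - c) * w C c ^ 2
      + (((C : ℝ) - c') ^ 2 / (4 * C) - ((C : ℝ) - c) ^ 2 / (4 * C)) := by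
    unfold G v
    ring
  have e2 : G C x₀ b c c' 0 = ((c' : ℝ) - c) ^ 2 / (4 * C) := by
    rw [e, hw]
    field_simp
    ring
  rw [e2]
  have h3 : (c' : ℝ) - c ≠ 0 := by
    intro h0
    apply h
    have : (c' : ℝ) = c := by linarith
    exact_mod_cast this.symm
  positivity

lemma ev {H : ℝ → ℝ} (hH : Continuous H) (h0 : 0 < H 0) : ∀ᶠ ε in 𝓝[>] (0 : ℝ), 0 < H ε :=
  ((hH.tendsto 0).eventually (lt_mem_nhds h0)).filter_mono nhdsWithin_le_nhds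

/-- all the finitely many strict inequalities -/
lemma ev_pair (C x₀ b c b' c' : ℕ) (hC : 1 ≤ C) (hc : c ≤ C) (h : (b, c) ≠ (b', c')) :
    ∀ᶠ ε in 𝓝[>] (0 : ℝ), 0 < F C x₀ b c b' c' ε := by
  by_cases hs : b + 2 * c * x₀ = b' + 2 * c' * x₀
  · have hcc : c ≠ c' := by
      intro hcc
      apply h
      subst hcc
      have : b = b' := by omega
      rw [this]
    have hs' : (b : ℝ) + 2 * c * x₀ = b' + 2 * c' * x₀ := by exact_mod_cast hs
    filter_upwards [ev (G_cont C x₀ b c c') (G_zero C x₀ b c c' hC hc hcc),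
      self_mem_nhdsWithin] with ε h1 h2
    rw [F_eq C x₀ b c b' c' ε hs']
    exact mul_pos h2 h1
  · exact ev (F_cont C x₀ b c b' c') (F_zero C x₀ b c b' c' hC hs)

lemma small_ev (K : ℝ) : ∀ᶠ ε in 𝓝[>] (0 : ℝ), ε * K < 1 / 4 := by
  have h : Continuous (fun ε : ℝ => 1 / 4 - ε * K) := by fun_prop
  filter_upwards [ev h (by norm_num)] with ε h1
  linarith

lemma first (A C x₀ a b c : ℕ) (hx : x₀ ≤ A) (hA : 1 ≤ A) (hC : 1 ≤ C) (hb : b ≤ C * A) (hc : c ≤ C)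
    (ε M x : ℝ) (hε : 0 < ε) (hM : 0 ≤ M) (h1 : M * ε ≤ 1 / 4) (h2 : 4 * ε * C ≤ 1)
    (h3 : ε * (3 * C * A * M + C * M / 4 + 32 * C ^ 2 * A ^ 2 + C / 4) < 1 / 4)
    (hxx : |x - x₀| ≤ M * ε) :
    |gf ε C a b c x - (a + b * x₀ + c * x₀ ^ 2)| < 1 / 4 := by
  have hA' : (1 : ℝ) ≤ A := by exact_mod_cast hA
  have hC' : (1 : ℝ) ≤ C := by exact_mod_cast hC
  have hb' : (b : ℝ) ≤ C * A := by exact_mod_cast hb
  have hc' : (c : ℝ) ≤ C := by exact_mod_cast hc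
  have hcx : (c : ℝ) * x₀ ≤ C * A := by exact_mod_cast Nat.mul_le_mul hc hx
  have hb0 : (0 : ℝ) ≤ b := Nat.cast_nonneg b
  have hc0 : (0 : ℝ) ≤ c := Nat.cast_nonneg c
  have hcx0 : (0 : ℝ) ≤ (c : ℝ) * x₀ := by positivity
  obtain ⟨u, hu⟩ : ∃ u : ℝ, u = x - x₀ := ⟨_, rfl⟩
  have hxu : x = x₀ + u := by rw [hu]; ring
  rw [← hu] at hxx
  obtain ⟨s, hs⟩ : ∃ s : ℝ, s = b + 2 * c * x₀ := ⟨_, rfl⟩
  have hs0 : 0 ≤ s := by rw [hs]; nlinarith
  have hs1 : s ≤ 3 * C * A := by rw [hs]; nlinarith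
  have e : gf ε C a b c x - (a + b * x₀ + c * x₀ ^ 2)
      = s * u + c * u * u + ε * ((1 + 4 * ε * c) * (s + 2 * c * u) ^ 2)
        + ε * (ε * ((C : ℝ) - c) ^ 2 / (4 * C)) := by
    unfold gf c0 c1 c2
    rw [hxu, hs]
    ring
  have hu4 : |u| ≤ 1 / 4 := hxx.trans h1
  have b1 : |s * u| ≤ 3 * C * A * (M * ε) := by
    rw [abs_mul, abs_of_nonneg hs0]
    exact mul_le_mul hs1 hxx (abs_nonneg _) (by positivity)
  have b2 : |c * u * u| ≤ C * (M * ε) * (1 / 4) := by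
    rw [abs_mul, abs_mul, abs_of_nonneg hc0]
    refine mul_le_mul (mul_le_mul hc' hxx (abs_nonneg _) (by positivity)) hu4 (abs_nonneg _) ?_
    positivity
  have b3 : |ε * ((1 + 4 * ε * c) * (s + 2 * c * u) ^ 2)| ≤ ε * (2 * (4 * C * A) ^ 2) := by
    rw [abs_of_nonneg (by positivity)]
    refine mul_le_mul_of_nonneg_left ?_ hε.le
    have hh1 : 1 + 4 * ε * c ≤ 2 := by
      have : 4 * ε * c ≤ 4 * ε * C := mul_le_mul_of_nonneg_left hc' (by positivity)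
      linarith
    have hh2 : |s + 2 * c * u| ≤ 4 * C * A := by
      refine (abs_add_le _ _).trans ?_
      rw [abs_of_nonneg hs0, abs_mul, abs_of_nonneg (by positivity : (0 : ℝ) ≤ 2 * c)]
      have : 2 * (c : ℝ) * |u| ≤ 2 * C * (1 / 4) := by
        refine mul_le_mul (by linarith) hu4 (abs_nonneg _) (by positivity)
      have hCA : (C : ℝ) ≤ C * A := by nlinarith
      nlinarith
    have hh3 : (s + 2 * c * u) ^ 2 ≤ (4 * C * A) ^ 2 := by
      rw [← sq_abs (s + 2 * c * u)]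
      exact pow_le_pow_left₀ (abs_nonneg _) hh2 2
    exact mul_le_mul hh1 hh3 (by positivity) (by norm_num)
  have b4 : |ε * (ε * ((C : ℝ) - c) ^ 2 / (4 * C))| ≤ ε * (C / 4) := by
    have hnn : 0 ≤ ε * ((C : ℝ) - c) ^ 2 / (4 * C) := by positivity
    rw [abs_mul, abs_of_nonneg hε.le, abs_of_nonneg hnn]
    refine mul_le_mul_of_nonneg_left ?_ hε.le
    rw [div_le_iff₀ (by positivity)]
    have hd : ((C : ℝ) - c) ^ 2 ≤ (C : ℝ) ^ 2 := by
      apply pow_le_pow_left₀ (by linarith)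
      linarith
    have hε1 : ε ≤ 1 := by
      have h6 : 4 * ε * 1 ≤ 4 * ε * C := mul_le_mul_of_nonneg_left hC' (by positivity)
      linarith
    calc ε * ((C : ℝ) - c) ^ 2 ≤ 1 * (C : ℝ) ^ 2 :=
          mul_le_mul hε1 hd (by positivity) (by norm_num)
      _ = (C : ℝ) / 4 * (4 * C) := by ring
  rw [e]
  refine lt_of_le_of_lt ((abs_add_le _ _).trans (add_le_add ((abs_add_le _ _).trans
    (add_le_add ((abs_add_le _ _).trans (add_le_add b1 b2)) b3)) b4)) ?_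
  refine lt_of_le_of_lt (le_of_eq ?_) h3
  ring

end MEP

open MEP in
/-- the shifts -/
theorem hEP : StEP := by
  intro A C hA hC
  obtain ⟨M, hMdef⟩ : ∃ M : ℝ, M = 6 * C * A + 2 := ⟨_, rfl⟩
  have hM0 : 0 < M := by rw [hMdef]; positivity
  have hfin : ∀ᶠ ε in 𝓝[>] (0 : ℝ), ∀ p ∈ (Finset.range (A + 1)) ×ˢ (Finset.range (C * A + 1)) ×ˢ
      (Finset.range (C + 1)) ×ˢ (Finset.range (C * A + 1)) ×ˢ (Finset.range (C + 1)),
      (p.2.1, p.2.2.1) ≠ (p.2.2.2.1, p.2.2.2.2) →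
        0 < F C p.1 p.2.1 p.2.2.1 p.2.2.2.1 p.2.2.2.2 ε := by
    rw [Filter.eventually_all_finset]
    rintro ⟨x₀, b, c, b', c'⟩ hp
    simp only [Finset.mem_product, Finset.mem_range] at hp
    by_cases h : (b, c) ≠ (b', c')
    · filter_upwards [ev_pair C x₀ b c b' c' hC (by omega) h] with ε h1 _
      exact h1
    · exact Filter.Eventually.of_forall fun ε h1 => absurd h1 h
  have hsm := small_ev M
  have hsm2 := small_ev (C : ℝ)
  have hsm3 := small_ev (3 * C * A * M + C * M / 4 + 32 * C ^ 2 * A ^ 2 + C / 4)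
  obtain ⟨ε, h1, h2, h3, h4, h5⟩ := (hfin.and (hsm.and (hsm2.and (hsm3.and
    (self_mem_nhdsWithin : ∀ᶠ ε in 𝓝[>] (0 : ℝ), ε ∈ Set.Ioi (0 : ℝ)))))).exists
  have hε : 0 < ε := h5
  refine ⟨ε, M * ε, fun x₀ b c => ε * v C x₀ b c, hε, by positivity, by linarith, ?_, ?_, ?_⟩
  · intro x₀ a b c hx ha hb hc x hxx
    exact first A C x₀ a b c hx hA hC hb hc ε M x hε hM0.le (by linarith) (by linarith) h4 hxx
  · intro x₀ b c hx hb hc
    rw [abs_mul, abs_of_pos hε, mul_comm M ε]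
    refine mul_lt_mul_of_pos_left ?_ hε
    rw [hMdef]
    exact abs_v_lt A C x₀ b c hC hx hb hc
  · intro x₀ a b c a' b' c' hx hb hc hb' hc' he hne
    have := h1 (x₀, b, c, b', c') (by
      simp only [Finset.mem_product, Finset.mem_range]
      omega) hne
    have h6 := diff_eq C x₀ a b c a' b' c' ε he
    have h7 : 0 < ε * F C x₀ b c b' c' ε := mul_pos hε this
    linarith

end Pool.Agent.Helper97.MC
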