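import Pool.Agent.Helper97.MC.St

/-!
# Many cells, module FI: the final computation
-/

set_option autoImplicit false

namespace Pool.Agent.Helper97.MC

private theorem core_FI (x y : ℝ) (hx : 1 ≤ x) (hxy : x ≤ y) (hyx : 48 * y ^ 2 ≤ x ^ 6) :
    ∃ A C : ℕ, 1 ≤ A ∧ 1 ≤ C ∧ 4 * (C : ℝ) ^ 3 * (A : ℝ) ^ 3 + A ≤ x ^ 6 ∧
      y ^ 2 ≤ 2 * C * (A : ℝ) ^ 3 ∧ y * x ^ 5 ≤ 48 * (y ^ 2 * ((C : ℝ) ^ 2 * A)) := by
  have hx0 : 0 < x := by linarith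
  have hy0 : 0 < y := by linarith
  have ht : 1 ≤ y / x := by rw [le_div_iff₀ hx0]; linarith
  set A : ℕ := ⌈2 * (y / x)⌉₊ with hA
  have hA1 : 2 * (y / x) ≤ A := Nat.le_ceil _
  have hA2 : (A : ℝ) < 2 * (y / x) + 1 := Nat.ceil_lt_add_one (by linarith)
  have hA3 : (A : ℝ) ≤ 3 * (y / x) := by linarith
  have hA0 : (0 : ℝ) < A := by linarith
  have hAx : (A : ℝ) * x ≤ 3 * y := by
    calc (A : ℝ) * x ≤ 3 * (y / x) * x := mul_le_mul_of_nonneg_right hA3 hx0.le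
      _ = 3 * y := by field_simp
  have hAx2 : 2 * y ≤ A * x := by
    calc 2 * y = 2 * (y / x) * x := by field_simp
      _ ≤ A * x := mul_le_mul_of_nonneg_right hA1 hx0.le
  have hAs : (A : ℝ) ≤ x ^ 2 / 2 := by
    have h1 : ((A : ℝ) * x) ^ 2 ≤ (x ^ 2 / 2 * x) ^ 2 := by
      calc ((A : ℝ) * x) ^ 2 ≤ (3 * y) ^ 2 := pow_le_pow_left₀ (by positivity) hAx 2
        _ = 9 * y ^ 2 := by ring
        _ ≤ (x ^ 2 / 2 * x) ^ 2 := by
          have : (x ^ 2 / 2 * x) ^ 2 = x ^ 6 / 4 := by ring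
          rw [this]
          nlinarith [sq_nonneg y]
    have h2 := (pow_le_pow_iff_left₀ (by positivity) (by positivity) (by norm_num)).1 h1
    exact le_of_mul_le_mul_right h2 hx0
  have hu : 1 ≤ x ^ 2 / (2 * A) := by
    rw [le_div_iff₀ (by positivity)]
    linarith
  set C : ℕ := ⌊x ^ 2 / (2 * A)⌋₊ with hC
  have hC1 : 1 ≤ C := (Nat.one_le_floor_iff _).2 hu
  have hC2 : (C : ℝ) ≤ x ^ 2 / (2 * A) := Nat.floor_le (by linarith)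
  have hC3 : x ^ 2 / (2 * A) < C + 1 := Nat.lt_floor_add_one _
  have hC1' : (1 : ℝ) ≤ C := by exact_mod_cast hC1
  have hC4 : x ^ 2 / (2 * A) ≤ 2 * C := by linarith
  have hCA : (C : ℝ) * A ≤ x ^ 2 / 2 := by
    rw [le_div_iff₀ (by positivity)] at hC2
    linarith
  have hCA2 : x ^ 2 ≤ 4 * (C * A) := by
    rw [div_le_iff₀ (by positivity)] at hC4
    linarith
  refine ⟨A, C, ?_, hC1, ?_, ?_, ?_⟩
  · have : (0 : ℝ) < (A : ℕ) := hA0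
    exact_mod_cast this
  · have h1 : ((C : ℝ) * A) ^ 3 ≤ (x ^ 2 / 2) ^ 3 := pow_le_pow_left₀ (by positivity) hCA 3
    have h2 : x ^ 2 ≤ x ^ 6 := pow_le_pow_right₀ hx (by norm_num)
    calc 4 * (C : ℝ) ^ 3 * (A : ℝ) ^ 3 + A = 4 * ((C : ℝ) * A) ^ 3 + A := by ring
      _ ≤ 4 * (x ^ 2 / 2) ^ 3 + x ^ 2 / 2 := by linarith
      _ = x ^ 6 / 2 + x ^ 2 / 2 := by ring
      _ ≤ x ^ 6 := by linarith
  · have h1 : (2 * y) ^ 2 ≤ (A * x) ^ 2 := pow_le_pow_left₀ (by positivity) hAx2 2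
    have h2 : x ^ 2 * (A : ℝ) ^ 2 ≤ 4 * (C * A) * (A : ℝ) ^ 2 :=
      mul_le_mul_of_nonneg_right hCA2 (by positivity)
    nlinarith [sq_nonneg y]
  · -- `x^5 ≤ 48 y C^2 A`
    have h1 : (x ^ 2) ^ 2 ≤ (4 * ((C : ℝ) * A)) ^ 2 := pow_le_pow_left₀ (by positivity) hCA2 2
    have h2 : x ^ 5 ≤ 48 * (y * ((C : ℝ) ^ 2 * A)) := by
      calc x ^ 5 = (x ^ 2) ^ 2 * x := by ring
        _ ≤ (4 * ((C : ℝ) * A)) ^ 2 * x := mul_le_mul_of_nonneg_right h1 hx0.le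
        _ = 16 * ((C : ℝ) ^ 2 * A) * (A * x) := by ring
        _ ≤ 16 * ((C : ℝ) ^ 2 * A) * (3 * y) := mul_le_mul_of_nonneg_left hAx (by positivity)
        _ = _ := by ring
    calc y * x ^ 5 ≤ y * (48 * (y * ((C : ℝ) ^ 2 * A))) := mul_le_mul_of_nonneg_left h2 hy0.le
      _ = _ := by ring

theorem hFI : StFI := by
  intro m n h1 h2 h3
  have hn : (1 : ℝ) ≤ n := by exact_mod_cast h3
  have hn0 : (0 : ℝ) ≤ n := by linarith
  have hm0 : (0 : ℝ) ≤ m := Nat.cast_nonneg m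
  set x : ℝ := (n : ℝ) ^ (1 / 6 : ℝ) with hx
  set y : ℝ := (m : ℝ) ^ (1 / 2 : ℝ) with hy
  have hxk : ∀ k : ℕ, x ^ k = (n : ℝ) ^ ((k : ℝ) / 6) := by
    intro k
    rw [hx, ← Real.rpow_natCast, ← Real.rpow_mul hn0]
    congr 1
    ring
  have hx6 : x ^ 6 = n := by
    rw [hxk 6]
    norm_num
  have hx5 : x ^ 5 = (n : ℝ) ^ (5 / 6 : ℝ) := by
    rw [hxk 5]
    norm_num
  have hx2 : x ^ 2 = (n : ℝ) ^ (1 / 3 : ℝ) := by
    rw [hxk 2]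
    norm_num
  have hy2 : y ^ 2 = m := by
    rw [hy, ← Real.rpow_natCast, ← Real.rpow_mul hm0]
    norm_num
  have hx1 : 1 ≤ x := Real.one_le_rpow hn (by norm_num)
  have hy0 : 0 ≤ y := Real.rpow_nonneg hm0 _
  have hxy : x ≤ y := by
    rw [← pow_le_pow_iff_left₀ (by linarith) hy0 (n := 2) (by norm_num), hx2, hy2]
    exact h1
  have hyx : 48 * y ^ 2 ≤ x ^ 6 := by
    rw [hy2, hx6]
    exact_mod_cast h2
  obtain ⟨A, C, hA, hC, h4, h5, h6⟩ := core_FI x y hx1 hxy hyx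
  rw [hx6] at h4
  rw [hy2] at h5 h6
  refine ⟨A, C, hA, hC, ?_, ?_, ?_⟩
  · exact_mod_cast h4
  · exact_mod_cast h5
  · rw [← hx5]
    push_cast
    exact h6

end Pool.Agent.Helper97.MC
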