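import Pool.Agent.Helper97.MC.St

/-!
# Many cells in an arrangement of circles: the local structure near an edge
-/

set_option autoImplicit false

namespace Pool.Agent.Helper97.MC

namespace MFR

theorem subset_of_meet {F c N : Set ℂ} {p w : ℂ} (hc : c = connectedComponentIn F p)
    (hwc : w ∈ c) (hwN : w ∈ N) (hN : IsPreconnected N) (hNF : N ⊆ F) : N ⊆ c := by
  rw [hc] at hwc ⊢
  rw [connectedComponentIn_eq hwc]
  exact hN.subset_connectedComponentIn hwN hNF

theorem isClosed_circle {C : Set ℂ} (h : IsCircle C) : IsClosed C := by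
  obtain ⟨z, r, -, rfl⟩ := h
  exact Metric.isClosed_sphere

/-- the local lemma -/
theorem local_nhd {F c W : Set ℂ} {p z x : ℂ} {r : ℝ} (hr : 0 < r)
    (hc : c = connectedComponentIn F p) (hFC : Disjoint F (Metric.sphere z r))
    (hW : IsOpen W) (hxW : x ∈ W) (hWF : ∀ y ∈ W, y ∉ Metric.sphere z r → y ∈ F)
    (hx : x ∈ Metric.sphere z r) (hxc : x ∈ closure c) :
    ∃ N : Set ℂ, IsOpen N ∧ x ∈ N ∧ N ∩ Metric.sphere z r ⊆ closure c := by
  have hr0 : r ≠ 0 := hr.ne'
  have hxz : x ≠ z := by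
    rintro rfl
    simp at hx
    exact hr0 hx.symm
  set inv : ℂ → ℂ := EuclideanGeometry.inversion z r with hinv
  have hcont : ∀ y : ℂ, y ≠ z → ContinuousAt inv y := fun y hy =>
    continuousAt_const.inversion continuousAt_const continuousAt_id hy
  have hfix : ∀ y ∈ Metric.sphere z r, inv y = y := fun y hy =>
    EuclideanGeometry.inversion_of_mem_sphere hy
  have hdist : ∀ y, dist (inv y) z = r ^ 2 / dist y z := fun y =>
    EuclideanGeometry.dist_inversion_center z y r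
  -- the first ball
  have h1 : ∀ᶠ y in nhds x, y ≠ z ∧ inv y ∈ W ∧ y ∈ W := by
    have ha : ∀ᶠ y in nhds x, y ≠ z := isOpen_ne.mem_nhds hxz
    have hb : ∀ᶠ y in nhds x, inv y ∈ W := by
      have := hcont x hxz
      refine this.eventually_mem ?_
      rw [hfix x hx]
      exact hW.mem_nhds hxW
    have hd : ∀ᶠ y in nhds x, y ∈ W := hW.mem_nhds hxW
    filter_upwards [ha, hb, hd] with y h1 h2 h3 using ⟨h1, h2, h3⟩
  obtain ⟨δ, hδ, hball⟩ := Metric.eventually_nhds_iff_ball.1 h1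
  set N₁ : Set ℂ := Metric.ball x δ ∩ Metric.ball z r with hN₁
  have hN₁F : N₁ ⊆ F := fun v hv => hWF v (hball v hv.1).2.2 fun h => by
    have h2 := hv.2
    rw [Metric.mem_ball] at h2
    rw [Metric.mem_sphere] at h
    linarith
  have hN₁z : ∀ v ∈ N₁, v ≠ z := fun v hv => (hball v hv.1).1
  have hN₁p : IsPreconnected N₁ := ((convex_ball x δ).inter (convex_ball z r)).isPreconnected
  have hN₂p : IsPreconnected (inv '' N₁) :=
    hN₁p.image _ fun v hv => (hcont v (hN₁z v hv)).continuousWithinAt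
  have hN₂F : inv '' N₁ ⊆ F := by
    rintro _ ⟨v, hv, rfl⟩
    refine hWF _ (hball v hv.1).2.1 fun h => ?_
    rw [Metric.mem_sphere, hdist] at h
    have h2 := hv.2
    rw [Metric.mem_ball] at h2
    have h3 : 0 < dist v z := dist_pos.2 (hN₁z v hv)
    rw [div_eq_iff h3.ne'] at h
    nlinarith
  -- the second ball
  have h2 : ∀ᶠ y in nhds x, y ∈ Metric.ball x δ ∧ inv y ∈ Metric.ball x δ := by
    have ha : ∀ᶠ y in nhds x, y ∈ Metric.ball x δ := Metric.ball_mem_nhds x hδ
    have hb : ∀ᶠ y in nhds x, inv y ∈ Metric.ball x δ := by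
      have := hcont x hxz
      refine this.eventually_mem ?_
      rw [hfix x hx]
      exact Metric.ball_mem_nhds x hδ
    filter_upwards [ha, hb] with y h1 h2 using ⟨h1, h2⟩
  obtain ⟨ε, hε, hball2⟩ := Metric.eventually_nhds_iff_ball.1 h2
  refine ⟨Metric.ball x ε, Metric.isOpen_ball, Metric.mem_ball_self hε, ?_⟩
  rintro y ⟨hyN, hyC⟩
  -- `y` is in the closure of `N₁`
  have hy1 : y ∈ closure N₁ := by
    have h3 : y ∈ Metric.ball x δ ∩ closure (Metric.ball z r) := by
      refine ⟨(hball2 y hyN).1, ?_⟩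
      rw [closure_ball z hr0]
      exact Metric.sphere_subset_closedBall hyC
    exact Metric.isOpen_ball.inter_closure h3
  have hyz : y ≠ z := (hball y (hball2 y hyN).1).1
  have hy2 : y ∈ closure (inv '' N₁) := by
    have := mem_closure_image (hcont y hyz) hy1
    rwa [hfix y hyC] at this
  obtain ⟨w, hwN, hwc⟩ := mem_closure_iff.1 hxc (Metric.ball x ε) Metric.isOpen_ball
    (Metric.mem_ball_self hε)
  have hwF : w ∈ F := by
    rw [hc] at hwc
    exact connectedComponentIn_subset _ _ hwc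
  have hwC : w ∉ Metric.sphere z r := fun h => Set.disjoint_left.1 hFC hwF h
  rw [Metric.mem_sphere] at hwC
  rcases lt_or_gt_of_ne hwC with hlt | hgt
  · have : N₁ ⊆ c := subset_of_meet hc hwc ⟨(hball2 w hwN).1, hlt⟩ hN₁p hN₁F
    exact closure_mono this hy1
  · have h4 : inv w ∈ N₁ := by
      refine ⟨(hball2 w hwN).2, ?_⟩
      rw [Metric.mem_ball, hdist, div_lt_iff₀ (hr.trans hgt)]
      nlinarith
    have h5 : w ∈ inv '' N₁ :=
      ⟨inv w, h4, EuclideanGeometry.inversion_inversion z hr0 w⟩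
    have : inv '' N₁ ⊆ c := subset_of_meet hc hwc h5 hN₂p hN₂F
    exact closure_mono this hy2

end MFR

open MFR in
theorem hFR : StFR := by
  intro 𝒞 hC c hc C hCm q hq hqc
  obtain ⟨p, -, hcp⟩ := hc
  have hclosed : IsClosed (⋃₀ (𝒞 : Set (Set ℂ))) := by
    rw [Set.sUnion_eq_biUnion]
    exact 𝒞.finite_toSet.isClosed_biUnion fun D hD => isClosed_circle (hC D hD)
  have hopen : IsOpen c := by
    rw [hcp]
    exact hclosed.isOpen_compl.connectedComponentIn
  have hcF : c ⊆ (⋃₀ (𝒞 : Set (Set ℂ)))ᶜ := by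
    rw [hcp]
    exact connectedComponentIn_subset _ _
  set e := connectedComponentIn (C \ vertices (𝒞 : Set (Set ℂ))) q with he
  have heC : e ⊆ C \ vertices (𝒞 : Set (Set ℂ)) := connectedComponentIn_subset _ _
  have hqe : q ∈ e := mem_connectedComponentIn hq
  have hepre : IsPreconnected e := isPreconnected_connectedComponentIn
  have hCF : Disjoint (⋃₀ (𝒞 : Set (Set ℂ)))ᶜ C :=
    Set.disjoint_left.2 fun y hy hyC => hy ⟨C, hCm, hyC⟩
  -- the claim
  have claim : ∀ x ∈ e, x ∈ closure c → ∃ N : Set ℂ, IsOpen N ∧ x ∈ N ∧ N ∩ C ⊆ closure c := by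
    intro x hxe hxc
    obtain ⟨hxC, hxV⟩ := heC hxe
    obtain ⟨z, r, hr, rfl⟩ := hC C hCm
    set W : Set ℂ := (⋃ D ∈ {D | D ∈ 𝒞 ∧ D ≠ Metric.sphere z r}, D)ᶜ with hWdef
    have hWo : IsOpen W := by
      rw [hWdef, isOpen_compl_iff]
      refine Set.Finite.isClosed_biUnion ?_ fun D hD => isClosed_circle (hC D hD.1)
      exact 𝒞.finite_toSet.subset fun D hD => hD.1
    have hxW : x ∈ W := by
      rw [hWdef]
      intro h
      simp only [Set.mem_ofPred_eq, Set.mem_iUnion, exists_prop] at h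
      obtain ⟨D, ⟨hD, hne⟩, hxD⟩ := h
      exact hxV ⟨_, hCm, D, hD, hne.symm, hxC, hxD⟩
    refine local_nhd hr hcp hCF hWo hxW ?_ hxC hxc
    intro y hyW hyC hyU
    obtain ⟨D, hD, hyD⟩ := hyU
    apply hyW
    simp only [Set.mem_ofPred_eq, Set.mem_iUnion, exists_prop]
    refine ⟨D, ⟨hD, ?_⟩, hyD⟩
    rintro rfl
    exact hyC hyD
  have hcl : e ⊆ closure c := by
    by_contra hcon
    obtain ⟨y0, hy0e, hy0⟩ := Set.not_subset.1 hcon
    set U : Set ℂ := {x | ∃ N : Set ℂ, IsOpen N ∧ x ∈ N ∧ N ∩ C ⊆ closure c} with hU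
    have hUo : IsOpen U := by
      rw [isOpen_iff_forall_mem_open]
      rintro x ⟨N, hN, hxN, hNC⟩
      exact ⟨N, fun y hy => ⟨N, hN, hy, hNC⟩, hN, hxN⟩
    have hcov : e ⊆ U ∪ (closure c)ᶜ := fun x hx => by
      by_cases hxc : x ∈ closure c
      · exact Or.inl (claim x hx hxc)
      · exact Or.inr hxc
    obtain ⟨y, hye, ⟨N, -, hyN, hNC⟩, hyc⟩ := hepre U (closure c)ᶜ hUo isClosed_closure.isOpen_compl
      hcov ⟨q, hqe, claim q hqe hqc⟩ ⟨y0, hy0e, hy0⟩
    exact hyc (hNC ⟨hyN, (heC hye).1⟩)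
  intro x hx
  rw [frontier, hopen.interior_eq]
  exact ⟨hcl hx, fun h => Set.disjoint_left.1 hCF (hcF h) (heC hx).1⟩

end Pool.Agent.Helper97.MC
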