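import Pool.Agent.Helper97.MC.St

/-!
# Many cells in an arrangement of circles: completing the square
-/

set_option autoImplicit false

namespace Pool.Agent.Helper97.MC

/-- completing the square -/
theorem hSP : StSP := by
  intro e a b c he hc h
  have hD : 0 < b ^ 2 + 1 / e ^ 2 - 4 * a * c := by linarith
  have hr : 0 < Real.sqrt (b ^ 2 + 1 / e ^ 2 - 4 * a * c) / (2 * c) :=
    div_pos (Real.sqrt_pos.2 hD) (by linarith)
  refine ⟨hr, ?_⟩
  ext z
  have hr2 : (Real.sqrt (b ^ 2 + 1 / e ^ 2 - 4 * a * c) / (2 * c)) ^ 2 =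
      (b ^ 2 + 1 / e ^ 2 - 4 * a * c) / (4 * c ^ 2) := by
    rw [div_pow, Real.sq_sqrt hD.le]
    ring
  have hkey : (z.re - -b / (2 * c)) ^ 2 + (z.im - 1 / (2 * c * e)) ^ 2 =
      Hf e a b c z / c + (b ^ 2 + 1 / e ^ 2 - 4 * a * c) / (4 * c ^ 2) := by
    unfold Hf
    field_simp
    ring
  show Hf e a b c z = 0 ↔ dist z _ = _
  rw [Complex.dist_eq_re_im]
  show _ ↔ Real.sqrt ((z.re - -b / (2 * c)) ^ 2 + (z.im - 1 / (2 * c * e)) ^ 2) = _
  rw [hkey, ← hr2]
  constructor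
  · intro h0
    rw [h0, zero_div, zero_add, Real.sqrt_sq hr.le]
  · intro h0
    have h1 : 0 ≤ Hf e a b c z / c +
        (Real.sqrt (b ^ 2 + 1 / e ^ 2 - 4 * a * c) / (2 * c)) ^ 2 := by
      rw [hr2, ← hkey]
      positivity
    have h2 := Real.sq_sqrt h1
    rw [h0] at h2
    have h3 : Hf e a b c z / c = 0 := by linarith
    rcases div_eq_zero_iff.1 h3 with h4 | h4
    · exact h4
    · exact absurd h4 hc.ne'

end Pool.Agent.Helper97.MC
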