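import Pool.Agent.Helper97.MC.M_CO
import Pool.Agent.Helper97.MC.M_FR
import Pool.Agent.Helper97.MC.M_BD
import Pool.Agent.Helper97.MC.M_SP
import Pool.Agent.Helper97.MC.M_EP
import Pool.Agent.Helper97.MC.M_FI

/-!
# Many cells in an arrangement of circles: the theorem
-/

set_option autoImplicit false

namespace Pool.Agent.Helper97.MC

/-- The values of the total complexity are bounded. -/
theorem bddAbove_totals (m n : ℕ) : BddAbove (totals m n) := by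
  obtain ⟨B, hB⟩ := hBD
  refine ⟨m * (B n + B n), ?_⟩
  rintro k ⟨𝒞, S, hn, hC, hm, hS, rfl⟩
  obtain ⟨h1, h2, h3, h4⟩ := hB 𝒞 hC
  rw [hn] at h3 h4
  rw [← hm, ← smul_eq_mul, ← Finset.sum_const]
  apply Finset.sum_le_sum
  intro c _
  unfold complexity
  apply Nat.add_le_add
  · exact (Set.ncard_le_ncard (fun v hv => hv.1) h1).trans h3
  · exact (Set.ncard_le_ncard (fun v hv => hv.1) h2).trans h4

theorem main (m n : ℕ) (hn : 1 ≤ n) (h1 : (n : ℝ) ^ (1 / 3 : ℝ) ≤ m) (h2 : 48 * m ≤ n) :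
    IsGreatest (totals m n) (K m n) ∧
      (m : ℝ) ^ (1 / 2 : ℝ) * (n : ℝ) ^ (5 / 6 : ℝ) ≤ 48 * K m n := by
  obtain ⟨A, C, hA, hC, h3, h4, h5⟩ := hFI m n h1 h2 hn
  obtain ⟨k, hk, hk1⟩ := hCO hFR hBD hSP hEP A C m n hA hC h3 h4
  have hb := bddAbove_totals m n
  have hle : k ≤ K m n := le_csSup hb hk
  refine ⟨⟨Nat.sSup_mem ⟨k, hk⟩ hb, fun x hx => le_csSup hb hx⟩, h5.trans ?_⟩
  have : ((m * (C ^ 2 * A) : ℕ) : ℝ) ≤ (K m n : ℝ) := by exact_mod_cast hk1.trans hle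
  linarith

end Pool.Agent.Helper97.MC
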