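import Pool.Agent.Helper97.MC.Co2

/-!
# Many cells in an arrangement of circles: the configuration, part 3
-/

set_option autoImplicit false

namespace Pool.Agent.Helper97.MC

open Set Filter Topology

namespace MCO

/-- The index set of the circles: the parabola-like circles, the circles separating the columns, and
the padding circles. -/
def Ix (A C N : ℕ) : Finset ((ℕ × ℕ × ℕ) ⊕ (ℕ ⊕ ℕ)) :=
  (Jx A C).disjSum ((Finset.Icc 1 A).disjSum (Finset.range N))

theorem card_Ix (A C N : ℕ) : (Ix A C N).card = 4 * C ^ 3 * A ^ 3 + (A + N) := by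
  rw [Ix, Finset.card_disjSum, Finset.card_disjSum, card_Jx]
  simp

/-- Centre and radius. -/
noncomputable def cr (A C : ℕ) (ε e : ℝ) : (ℕ × ℕ × ℕ) ⊕ (ℕ ⊕ ℕ) → ℂ × ℝ
  | .inl j => (⟨-(c1 ε j.2.1 j.2.2) / (2 * c2 ε j.2.2), 1 / (2 * c2 ε j.2.2 * e)⟩,
      Real.sqrt (c1 ε j.2.1 j.2.2 ^ 2 + 1 / e ^ 2 -
        4 * c0 ε C j.1 j.2.1 j.2.2 * c2 ε j.2.2) / (2 * c2 ε j.2.2))
  | .inr (.inl x) => ((x : ℂ), 1 / 2)
  | .inr (.inr k) => (0, A + 2 + k)

/-- The circle. -/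
noncomputable def crc (A C : ℕ) (ε e : ℝ) (i : (ℕ × ℕ × ℕ) ⊕ (ℕ ⊕ ℕ)) : Set ℂ :=
  Metric.sphere (cr A C ε e i).1 (cr A C ε e i).2

section

variable {A C : ℕ} {ε η : ℝ} {u : ℕ → ℕ → ℕ → ℝ} {e : ℝ}

theorem rad_pos (hSP : StSP) (S : Small A C ε η u e) (N : ℕ) {i : (ℕ × ℕ × ℕ) ⊕ (ℕ ⊕ ℕ)}
    (hi : i ∈ Ix A C N) : 0 < (cr A C ε e i).2 := by
  rcases i with j | x | k
  · have hj : j ∈ Jx A C := by simpa [Ix] using hi
    exact (hSP e _ _ _ S.e_pos (c2_pos S.ε_pos (mem_Jx.1 hj).2.2.1) (S.disc j hj)).1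
  · show (0 : ℝ) < 1 / 2
    norm_num
  · show (0 : ℝ) < A + 2 + k
    positivity

theorem crc_inl (hSP : StSP) (S : Small A C ε η u e) {j : ℕ × ℕ × ℕ} (hj : j ∈ Jx A C) :
    crc A C ε e (.inl j) = {z | Hj ε e C j z = 0} :=
  (hSP e _ _ _ S.e_pos (c2_pos S.ε_pos (mem_Jx.1 hj).2.2.1) (S.disc j hj)).2.symm

theorem c2_inj {ε : ℝ} (hε : 0 < ε) {c c' : ℕ} (h : c2 ε c = c2 ε c') : c = c' := by
  have hmono : ∀ a b : ℕ, a < b → c2 ε a < c2 ε b := by
    intro a b hab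
    have h1 : (a : ℝ) < b := by exact_mod_cast hab
    have h0 : (0 : ℝ) ≤ a := by positivity
    unfold c2
    have h2 : (a : ℝ) ^ 2 < (b : ℝ) ^ 2 := by gcongr
    have h3 : (a : ℝ) ^ 3 < (b : ℝ) ^ 3 := by gcongr
    have h4 : 0 < ε ^ 2 := by positivity
    nlinarith
  rcases lt_trichotomy c c' with h1 | h1 | h1
  · exact absurd h (hmono _ _ h1).ne
  · exact h1
  · exact absurd h (hmono _ _ h1).ne'

theorem cr_inj (S : Small A C ε η u e) (N : ℕ) : Set.InjOn (cr A C ε e) (Ix A C N) := by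
  have he := S.e_pos
  intro i hi i' hi' h
  have him : ∀ j ∈ Jx A C, 0 < (cr A C ε e (.inl j)).1.im := by
    intro j hj
    have := c2_pos S.ε_pos (mem_Jx.1 hj).2.2.1
    show 0 < 1 / (2 * c2 ε j.2.2 * e)
    positivity
  rcases i with j | x | k <;> rcases i' with j' | x' | k'
  · have hj : j ∈ Jx A C := by simpa [Ix] using hi
    have hj' : j' ∈ Jx A C := by simpa [Ix] using hi'
    have hc := c2_pos S.ε_pos (mem_Jx.1 hj).2.2.1
    have hc' := c2_pos S.ε_pos (mem_Jx.1 hj').2.2.1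
    have hε := S.ε_pos
    have h1 := congrArg (fun p => p.1.im) h
    have h2 := congrArg (fun p => p.1.re) h
    have h3 := congrArg (fun p => p.2) h
    simp only [cr] at h1 h2 h3
    have e1 : c2 ε j.2.2 = c2 ε j'.2.2 := by
      field_simp at h1
      linarith
    have e1' := c2_inj S.ε_pos e1
    rw [e1] at h2 h3
    have e2 : c1 ε j.2.1 j.2.2 = c1 ε j'.2.1 j'.2.2 := by
      field_simp at h2
      linarith
    have e2' : j.2.1 = j'.2.1 := by
      have hq : 0 < 1 + 4 * ε * (j'.2.2 : ℝ) + 16 * ε ^ 2 * (j'.2.2 : ℝ) ^ 2 := by positivity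
      unfold c1 at e2
      rw [e1'] at e2
      have : ((j.2.1 : ℝ) - j'.2.1) * (1 + 4 * ε * (j'.2.2 : ℝ) + 16 * ε ^ 2 * (j'.2.2 : ℝ) ^ 2) = 0 := by
        linear_combination e2
      rcases mul_eq_zero.1 this with h4 | h4
      · exact_mod_cast sub_eq_zero.1 h4
      · exact absurd h4 hq.ne'
    have e3 : c0 ε C j.1 j.2.1 j.2.2 = c0 ε C j'.1 j'.2.1 j'.2.2 := by
      have d1 := S.disc j hj
      have d2 := S.disc j' hj'
      rw [e1, e2] at d1
      have h5 : Real.sqrt (c1 ε j.2.1 j.2.2 ^ 2 + 1 / e ^ 2 -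
          4 * c0 ε C j.1 j.2.1 j.2.2 * c2 ε j'.2.2) =
          Real.sqrt (c1 ε j'.2.1 j'.2.2 ^ 2 + 1 / e ^ 2 -
          4 * c0 ε C j'.1 j'.2.1 j'.2.2 * c2 ε j'.2.2) := by
        have h6 : (2 * c2 ε j'.2.2) ≠ 0 := by positivity
        exact (div_left_inj' h6).1 h3
      rw [e2] at h5
      rw [Real.sqrt_inj (by linarith) (by linarith)] at h5
      have h7 : (c0 ε C j.1 j.2.1 j.2.2 - c0 ε C j'.1 j'.2.1 j'.2.2) * (4 * c2 ε j'.2.2) = 0 := by
        linear_combination -h5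
      rcases mul_eq_zero.1 h7 with h8 | h8
      · linarith
      · exact absurd h8 (by positivity)
    have e3' : j.1 = j'.1 := by
      unfold c0 at e3
      rw [e1', e2'] at e3
      have : (j.1 : ℝ) = j'.1 := by linarith
      exact_mod_cast this
    rw [Prod.ext e3' (Prod.ext e2' e1')]
  · have hj : j ∈ Jx A C := by simpa [Ix] using hi
    have := him j hj
    rw [h] at this
    simp [cr] at this
  · have hj : j ∈ Jx A C := by simpa [Ix] using hi
    have := him j hj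
    rw [h] at this
    simp [cr] at this
  · have hj : j' ∈ Jx A C := by simpa [Ix] using hi'
    have := him j' hj
    rw [← h] at this
    simp [cr] at this
  · have h1 := congrArg (fun p => p.1) h
    simp only [cr] at h1
    have : x = x' := by exact_mod_cast h1
    rw [this]
  · have h1 := congrArg (fun p => p.1) h
    simp only [cr] at h1
    have h2 : x = 0 := by exact_mod_cast h1
    have h3 : x ∈ Finset.Icc 1 A := by simpa [Ix] using hi
    rw [Finset.mem_Icc] at h3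
    omega
  · have hj : j' ∈ Jx A C := by simpa [Ix] using hi'
    have := him j' hj
    rw [← h] at this
    simp [cr] at this
  · have h1 := congrArg (fun p => p.1) h
    simp only [cr] at h1
    have h2 : x' = 0 := by exact_mod_cast h1.symm
    have h3 : x' ∈ Finset.Icc 1 A := by simpa [Ix] using hi'
    rw [Finset.mem_Icc] at h3
    omega
  · have h1 := congrArg (fun p => p.2) h
    simp only [cr] at h1
    have : (k : ℝ) = k' := by linarith
    have : k = k' := by exact_mod_cast this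
    rw [this]

theorem crc_inj (hSP : StSP) (S : Small A C ε η u e) (N : ℕ) :
    Set.InjOn (crc A C ε e) (Ix A C N) := by
  intro i hi i' hi' h
  have h1 := sphere_inj (rad_pos hSP S N hi) (rad_pos hSP S N hi') h
  exact cr_inj S N hi hi' (Prod.ext h1.1 h1.2)

open Classical in
/-- The circles. -/
noncomputable def circles (A C N : ℕ) (ε e : ℝ) : Finset (Set ℂ) :=
  (Ix A C N).image (crc A C ε e)

theorem card_circles (hSP : StSP) (S : Small A C ε η u e) (N : ℕ) :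
    (circles A C N ε e).card = 4 * C ^ 3 * A ^ 3 + (A + N) := by
  classical
  rw [circles, Finset.card_image_of_injOn (crc_inj hSP S N), card_Ix]

theorem isCircle (hSP : StSP) (S : Small A C ε η u e) (N : ℕ) :
    ∀ D ∈ circles A C N ε e, IsCircle D := by
  classical
  intro D hD
  rw [circles, Finset.mem_image] at hD
  obtain ⟨i, hi, rfl⟩ := hD
  exact ⟨_, _, rad_pos hSP S N hi, rfl⟩

theorem mem_circles {N : ℕ} {D : Set ℂ} : D ∈ circles A C N ε e ↔
    (∃ j ∈ Jx A C, crc A C ε e (.inl j) = D) ∨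
    (∃ x : ℕ, 1 ≤ x ∧ x ≤ A ∧ Metric.sphere (x : ℂ) (1 / 2) = D) ∨
    ∃ k < N, Metric.sphere (0 : ℂ) (A + 2 + k) = D := by
  classical
  rw [circles, Finset.mem_image]
  constructor
  · rintro ⟨i, hi, rfl⟩
    rcases i with j | x | k
    · left
      exact ⟨j, by simpa [Ix] using hi, rfl⟩
    · right; left
      have : x ∈ Finset.Icc 1 A := by simpa [Ix] using hi
      rw [Finset.mem_Icc] at this
      exact ⟨x, this.1, this.2, rfl⟩
    · right; right
      exact ⟨k, by simpa [Ix] using hi, rfl⟩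
  · rintro (⟨j, hj, rfl⟩ | ⟨x, h1, h2, rfl⟩ | ⟨k, hk, rfl⟩)
    · exact ⟨.inl j, by simpa [Ix] using hj, rfl⟩
    · exact ⟨.inr (.inl x), by simp [Ix]; omega, rfl⟩
    · exact ⟨.inr (.inr k), by simpa [Ix] using hk, rfl⟩

/-- The points of the box around a column. -/
def Box (A C : ℕ) (η e : ℝ) (x₀ : ℕ) : Set ℂ :=
  {z | |z.re - x₀| < η ∧ 0 ≤ z.im ∧ z.im ≤ e * (4 * C * A ^ 2 + 1)}

theorem box_in (S : Small A C ε η u e) {x₀ : ℕ} {z : ℂ} (hz : z ∈ Box A C η e x₀) :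
    dist z (x₀ : ℂ) < 1 / 2 := by
  have h1 := hz.1
  have h2 := S.η_le
  have h3 := S.e_small
  have h4 : |z.im| ≤ 1 / 8 := by
    rw [abs_of_nonneg hz.2.1]
    exact hz.2.2.trans h3
  rw [dist_eq_norm]
  calc ‖z - (x₀ : ℂ)‖ ≤ |(z - (x₀ : ℂ)).re| + |(z - (x₀ : ℂ)).im| := Complex.norm_le_abs_re_add_abs_im _
    _ = |z.re - x₀| + |z.im| := by simp
    _ < 1 / 2 := by linarith

theorem box_out (S : Small A C ε η u e) {x₀ x₁ : ℕ} (hne : x₁ ≠ x₀) {z : ℂ}
    (hz : z ∈ Box A C η e x₀) : 1 / 2 < dist z (x₁ : ℂ) := by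
  have h1 := hz.1
  have h2 := S.η_le
  rw [dist_eq_norm]
  have h3 : |(z - (x₁ : ℂ)).re| ≤ ‖z - (x₁ : ℂ)‖ := Complex.abs_re_le_norm _
  have h4 : |z.re - x₁| ≤ ‖z - (x₁ : ℂ)‖ := by simpa using h3
  refine lt_of_lt_of_le ?_ h4
  have h5 : (1 : ℝ) ≤ |(x₁ : ℝ) - x₀| := by
    have : (1 : ℤ) ≤ |(x₁ : ℤ) - x₀| := by
      apply Int.one_le_abs
      omega
    exact_mod_cast this
  have h6 : |(x₁ : ℝ) - x₀| ≤ |z.re - x₁| + |z.re - x₀| := by
    have := abs_sub_abs_le_abs_sub (z.re - x₀) (z.re - x₁)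
    have h7 : (x₁ : ℝ) - x₀ = (z.re - x₀) - (z.re - x₁) := by ring
    rw [h7]
    have := abs_sub (z.re - x₀) (z.re - x₁)
    linarith
  linarith

theorem box_pad (S : Small A C ε η u e) {x₀ : ℕ} (hx₀ : x₀ ≤ A) {z : ℂ}
    (hz : z ∈ Box A C η e x₀) (k : ℕ) : z ∉ Metric.sphere (0 : ℂ) (A + 2 + k) := by
  intro h
  rw [mem_sphere_iff_norm, sub_zero] at h
  have h1 := box_in S hz
  have h2 : ‖z‖ ≤ dist z (x₀ : ℂ) + x₀ := by
    have := dist_triangle z (x₀ : ℂ) 0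
    rw [dist_zero_right, dist_zero_right] at this
    simpa using this
  have h3 : (x₀ : ℝ) ≤ A := by exact_mod_cast hx₀
  have h4 : (0 : ℝ) ≤ k := by positivity
  linarith

theorem rg_box (S : Small A C ε η u e) {x₀ y₀ : ℕ} (hy0 : 1 ≤ y₀) (hy : y₀ ≤ 4 * C * A ^ 2) :
    Rg A C ε η e x₀ y₀ ⊆ Box A C η e x₀ := by
  intro z hz
  have he := S.e_pos
  have hy0' : (1 : ℝ) ≤ y₀ := by exact_mod_cast hy0
  have hy' : (y₀ : ℝ) ≤ 4 * C * A ^ 2 := by exact_mod_cast hy
  refine ⟨hz.1, ?_, ?_⟩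
  · refine le_trans ?_ hz.2.1
    apply mul_nonneg he.le
    linarith
  · refine hz.2.2.1.trans ?_
    apply mul_le_mul_of_nonneg_left _ he.le
    linarith

theorem rg_free (hSP : StSP) (S : Small A C ε η u e) {x₀ y₀ : ℕ} (hx₀ : x₀ ≤ A)
    (hy0 : 1 ≤ y₀) (hy : y₀ ≤ 4 * C * A ^ 2) (N : ℕ) :
    Rg A C ε η e x₀ y₀ ⊆ (⋃₀ (circles A C N ε e : Set (Set ℂ)))ᶜ := by
  intro z hz hz'
  have he := S.e_pos
  obtain ⟨D, hD, hzD⟩ := hz'
  have hbox := rg_box S hy0 hy hz
  rcases mem_circles.1 (Finset.mem_coe.1 hD) with ⟨j, hj, rfl⟩ | ⟨x, h1, h2, rfl⟩ | ⟨k, hk, rfl⟩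
  · rw [crc_inl hSP S hj] at hzD
    have h0 : Hj ε e C j z = 0 := hzD
    by_cases hle : y₀ ≤ yj j x₀
    · exact (hz.2.2.2 j hj hle).ne' h0
    · push Not at hle
      rw [eta_eq he z] at h0
      refine (S.neg hx₀ hj hz.1.le ?_ ?_).ne h0
      · rw [le_div_iff₀ he]
        have h3 : (yj j x₀ : ℝ) + 1 ≤ y₀ := by exact_mod_cast hle
        have := hz.2.1
        nlinarith
      · rw [div_le_iff₀ he]
        have := hbox.2.2
        linarith
  · by_cases hx : x = x₀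
    · subst hx
      exact (box_in S hbox).ne hzD
    · exact (box_out S hx hbox).ne' hzD
  · exact box_pad S hx₀ hbox k hzD

/-- The base point. -/
noncomputable def bp (e : ℝ) (p : ℕ × ℕ) : ℂ := ⟨p.1, e * (p.2 - 1 / 2)⟩

/-- The cell. -/
noncomputable def cell (A C N : ℕ) (ε e : ℝ) (p : ℕ × ℕ) : Set ℂ :=
  connectedComponentIn (⋃₀ (circles A C N ε e : Set (Set ℂ)))ᶜ (bp e p)

/-- The grid points. -/
def Px (A C : ℕ) : Finset (ℕ × ℕ) :=
  Finset.Icc 1 A ×ˢ Finset.Ioc (2 * C * A ^ 2) (4 * C * A ^ 2)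

theorem card_Px (A C : ℕ) : (Px A C).card = 2 * C * A ^ 3 := by
  rw [Px, Finset.card_product, Nat.card_Icc, Nat.card_Ioc]
  have : 4 * C * A ^ 2 - 2 * C * A ^ 2 = 2 * C * A ^ 2 := by
    have : 4 * C * A ^ 2 = 2 * C * A ^ 2 + 2 * C * A ^ 2 := by ring
    omega
  rw [this]
  simp
  ring

theorem mem_Px {p : ℕ × ℕ} : p ∈ Px A C ↔ (1 ≤ p.1 ∧ p.1 ≤ A) ∧
    2 * C * A ^ 2 < p.2 ∧ p.2 ≤ 4 * C * A ^ 2 := by
  simp [Px]

theorem bp_mem (S : Small A C ε η u e) {p : ℕ × ℕ} (hp : p ∈ Px A C) :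
    bp e p ∈ Rg A C ε η e p.1 p.2 :=
  S.base_mem (mem_Px.1 hp).1.2 (by simpa using S.η_pos)

theorem rg_cell (hSP : StSP) (S : Small A C ε η u e) (N : ℕ) {p : ℕ × ℕ} (hp : p ∈ Px A C) :
    Rg A C ε η e p.1 p.2 ⊆ cell A C N ε e p := by
  have h := mem_Px.1 hp
  have hy : 1 ≤ p.2 := by omega
  exact (S.preconnected h.1.2 hy h.2.2).subset_connectedComponentIn (bp_mem S hp)
    (rg_free hSP S h.1.2 hy h.2.2 N)

/-- The index of the circle through the grid point `p` with parameters `b`, `c`. -/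
def ji (p : ℕ × ℕ) (q : ℕ × ℕ) : ℕ × ℕ × ℕ := (p.2 - q.1 * p.1 - q.2 * p.1 ^ 2, q.1, q.2)

theorem ji_mem {p : ℕ × ℕ} (hp : p ∈ Px A C) {q : ℕ × ℕ}
    (hq : q ∈ Finset.Icc 1 (C * A) ×ˢ Finset.Icc 1 C) :
    ji p q ∈ Jx A C ∧ yj (ji p q) p.1 = p.2 := by
  rw [Finset.mem_product, Finset.mem_Icc, Finset.mem_Icc] at hq
  have hp' := mem_Px.1 hp
  have h1 : q.1 * p.1 ≤ C * A * A := Nat.mul_le_mul hq.1.2 hp'.1.2
  have h2 : q.2 * p.1 ^ 2 ≤ C * A ^ 2 :=
    Nat.mul_le_mul hq.2.2 (Nat.pow_le_pow_left hp'.1.2 2)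
  have h3 : C * A * A = C * A ^ 2 := by ring
  have h4 : 2 * C * A ^ 2 = C * A ^ 2 + C * A ^ 2 := by ring
  rw [h3] at h1
  rw [h4] at hp'
  constructor
  · rw [mem_Jx]
    refine ⟨⟨?_, ?_⟩, hq.1, hq.2⟩
    · show 1 ≤ p.2 - q.1 * p.1 - q.2 * p.1 ^ 2
      omega
    · show p.2 - q.1 * p.1 - q.2 * p.1 ^ 2 ≤ _
      omega
  · show p.2 - q.1 * p.1 - q.2 * p.1 ^ 2 + q.1 * p.1 + q.2 * p.1 ^ 2 = p.2
    omega

/-- Different grid points give different cells. -/
theorem cell_inj (hSP : StSP) (S : Small A C ε η u e) (hA : 1 ≤ A) (hC : 1 ≤ C) (N : ℕ) :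
    Set.InjOn (cell A C N ε e) (Px A C : Set (ℕ × ℕ)) := by
  classical
  intro p hp p' hp' h
  have hp := Finset.mem_coe.1 hp
  have hp' := Finset.mem_coe.1 hp'
  have hP := mem_Px.1 hp
  have hP' := mem_Px.1 hp'
  have hf := rg_free hSP S hP.1.2 (by omega) hP.2.2 N (bp_mem S hp)
  have hf' := rg_free hSP S hP'.1.2 (by omega) hP'.2.2 N (bp_mem S hp')
  have hb := rg_box S (by omega) hP.2.2 (bp_mem S hp)
  have hb' := rg_box S (by omega) hP'.2.2 (bp_mem S hp')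
  -- the columns
  have hx : p.1 = p'.1 := by
    by_contra hne
    refine comp_sep (U := (⋃₀ (circles A C N ε e : Set (Set ℂ)))ᶜ)
      (f := fun z => 1 / 2 - dist z (p.1 : ℂ)) (by fun_prop) ?_ hf' ?_ ?_ hf h
    · intro z hz h0
      apply hz
      refine ⟨Metric.sphere (p.1 : ℂ) (1 / 2), ?_, ?_⟩
      · exact Finset.mem_coe.2 (mem_circles.2 (Or.inr (Or.inl ⟨p.1, hP.1.1, hP.1.2, rfl⟩)))
      · rw [Metric.mem_sphere]
        linarith
    · have := box_in S hb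
      linarith
    · have := box_out S hne hb'
      linarith
  -- the rows
  have key : ∀ r r' : ℕ × ℕ, r ∈ Px A C → r' ∈ Px A C → r.1 = r'.1 → r.2 < r'.2 →
      cell A C N ε e r ≠ cell A C N ε e r' := by
    intro r r' hr hr' h1 h2
    have hR := mem_Px.1 hr
    have hR' := mem_Px.1 hr'
    have hq : ((1, 1) : ℕ × ℕ) ∈ Finset.Icc 1 (C * A) ×ˢ Finset.Icc 1 C := by
      rw [Finset.mem_product, Finset.mem_Icc, Finset.mem_Icc]
      exact ⟨⟨le_rfl, Nat.one_le_iff_ne_zero.2 (by positivity)⟩, le_rfl, hC⟩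
    obtain ⟨hj, hy⟩ := ji_mem hr hq
    refine comp_sep (U := (⋃₀ (circles A C N ε e : Set (Set ℂ)))ᶜ)
      (f := Hj ε e C (ji r (1, 1))) (continuous_Hf _ _ _ _) ?_
      (rg_free hSP S hR'.1.2 (by omega) hR'.2.2 N (bp_mem S hr')) ?_ ?_
      (rg_free hSP S hR.1.2 (by omega) hR.2.2 N (bp_mem S hr))
    · intro z hz h0
      apply hz
      refine ⟨crc A C ε e (.inl (ji r (1, 1))), ?_, ?_⟩
      · exact Finset.mem_coe.2 (mem_circles.2 (Or.inl ⟨_, hj, rfl⟩))
      · rw [crc_inl hSP S hj]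
        exact h0
    · exact (bp_mem S hr).2.2.2 _ hj hy.ge
    · have hy' : (yj (ji r (1, 1)) r'.1 : ℝ) + 1 ≤ r'.2 := by
        rw [← h1, hy]
        exact_mod_cast h2
      have hr2 : (r'.2 : ℝ) ≤ 4 * C * A ^ 2 := by exact_mod_cast hR'.2.2
      refine S.neg hR'.1.2 hj (by simpa using S.η_pos.le) ?_ ?_
      · linarith
      · linarith
  have hy : p.2 = p'.2 := by
    rcases lt_trichotomy p.2 p'.2 with h1 | h1 | h1
    · exact absurd h (key p p' hp hp' hx h1)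
    · exact h1
    · exact absurd h.symm (key p' p hp' hp hx.symm h1)
  exact Prod.ext hx hy

/-- Many edges on the boundary of each of the cells. -/
theorem edges_cell (hFR : StFR) (hBD : StBD) (hSP : StSP) (S : Small A C ε η u e) (N : ℕ)
    {p : ℕ × ℕ} (hp : p ∈ Px A C) :
    C ^ 2 * A ≤ complexity (circles A C N ε e : Set (Set ℂ)) (cell A C N ε e p) := by
  classical
  set 𝒞 := circles A C N ε e with h𝒞
  have he := S.e_pos
  have hP := mem_Px.1 hp
  have hcell : cell A C N ε e p ∈ cells (𝒞 : Set (Set ℂ)) :=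
    ⟨bp e p, rg_free hSP S hP.1.2 (by omega) hP.2.2 N (bp_mem S hp), rfl⟩
  set Q := Finset.Icc 1 (C * A) ×ˢ Finset.Icc 1 C with hQ
  have hw : ∀ q ∈ Q, ∃ w : ℂ, w ∈ crc A C ε e (.inl (ji p q)) \ vertices (𝒞 : Set (Set ℂ)) ∧
      w ∈ closure (cell A C N ε e p) := by
    intro q hq
    obtain ⟨hj, hy⟩ := ji_mem hp hq
    set j := ji p q with hjdef
    obtain ⟨Y, h1, h2, h3, h4, h5⟩ := S.witness hP.1.2 hj (by omega) (by omega)
    refine ⟨⟨p.1 + u p.1 j.2.1 j.2.2, e * Y⟩, ⟨?_, ?_⟩, ?_⟩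
    · rw [crc_inl hSP S hj]
      exact h3
    · rintro ⟨D, hD, D', hD', hne, hm, hm'⟩
      have hbox : (⟨p.1 + u p.1 j.2.1 j.2.2, e * Y⟩ : ℂ) ∈ Box A C η e p.1 := by
        have hy1 : (1 : ℝ) ≤ yj j p.1 := by
          rw [hy]
          have : 1 ≤ p.2 := by omega
          exact_mod_cast this
        have hy2 : (yj j p.1 : ℝ) ≤ 4 * C * A ^ 2 := by
          rw [hy]; exact_mod_cast hP.2.2
        refine ⟨?_, ?_, ?_⟩
        · simp only
          rw [add_sub_cancel_left]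
          exact S.u_lt p.1 hP.1.2 j hj
        · simp only
          apply mul_nonneg he.le
          linarith
        · simp only
          apply mul_le_mul_of_nonneg_left _ he.le
          linarith
      have honly : ∀ D ∈ 𝒞, (⟨p.1 + u p.1 j.2.1 j.2.2, e * Y⟩ : ℂ) ∈ D →
          D = crc A C ε e (.inl j) := by
        intro D hD hm
        rcases mem_circles.1 hD with ⟨j', hj', rfl⟩ | ⟨x, h1, h2, rfl⟩ | ⟨k, hk, rfl⟩
        · by_cases hjj : j' = j
          · rw [hjj]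
          · exfalso
            rw [crc_inl hSP S hj'] at hm
            have hm0 : Hj ε e C j' ⟨p.1 + u p.1 j.2.1 j.2.2, e * Y⟩ = 0 := hm
            by_cases hle : yj j p.1 ≤ yj j' p.1
            · exact (h4 j' hj' hjj hle).ne' hm0
            · push Not at hle
              exact (h5 j' hj' hle).ne hm0
        · exfalso
          by_cases hx : x = p.1
          · subst hx
            exact (box_in S hbox).ne hm
          · exact (box_out S hx hbox).ne' hm
        · exact absurd hm (box_pad S hP.1.2 hbox k)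
      exact hne ((honly D hD hm).trans (honly D' hD' hm').symm)
    · have h6 := S.closure hP.1.2 hj (by omega) (by omega) h1 h2 h3 h4
      rw [hy] at h6
      exact closure_mono (rg_cell hSP S N hp) h6
  choose! w hw1 hw2 using hw
  have hfin : {ed | ed ∈ edges (𝒞 : Set (Set ℂ)) ∧ ed ⊆ frontier (cell A C N ε e p)}.Finite := by
    obtain ⟨B, hB⟩ := hBD
    exact ((hB 𝒞 (isCircle hSP S N)).2.1).subset fun ed h => h.1
  have hmaps : ∀ q ∈ Q, connectedComponentIn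
      (crc A C ε e (.inl (ji p q)) \ vertices (𝒞 : Set (Set ℂ))) (w q) ∈
      hfin.toFinset := by
    intro q hq
    obtain ⟨hj, hy⟩ := ji_mem hp hq
    have hmem : crc A C ε e (.inl (ji p q)) ∈ 𝒞 := mem_circles.2 (Or.inl ⟨_, hj, rfl⟩)
    rw [Set.Finite.mem_toFinset]
    refine ⟨⟨_, Finset.mem_coe.2 hmem, w q, hw1 q hq, rfl⟩, ?_⟩
    exact hFR 𝒞 (isCircle hSP S N) _ hcell _ hmem _ (hw1 q hq) (hw2 q hq)
  have hinj : Set.InjOn (fun q => connectedComponentIn
      (crc A C ε e (.inl (ji p q)) \ vertices (𝒞 : Set (Set ℂ))) (w q)) (Q : Set (ℕ × ℕ)) := by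
    intro q hq q' hq' h
    have hq := Finset.mem_coe.1 hq
    have hq' := Finset.mem_coe.1 hq'
    by_contra hne
    obtain ⟨hj, hy⟩ := ji_mem hp hq
    obtain ⟨hj', hy'⟩ := ji_mem hp hq'
    simp only at h
    have h1 : w q ∈ connectedComponentIn
        (crc A C ε e (.inl (ji p q)) \ vertices (𝒞 : Set (Set ℂ))) (w q) :=
      mem_connectedComponentIn (hw1 q hq)
    rw [h] at h1
    have h2 := connectedComponentIn_subset _ _ h1
    have hmem : crc A C ε e (.inl (ji p q)) ∈ 𝒞 := mem_circles.2 (Or.inl ⟨_, hj, rfl⟩)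
    have hmem' : crc A C ε e (.inl (ji p q')) ∈ 𝒞 := mem_circles.2 (Or.inl ⟨_, hj', rfl⟩)
    apply (hw1 q hq).2
    refine ⟨_, Finset.mem_coe.2 hmem, _, Finset.mem_coe.2 hmem', ?_, (hw1 q hq).1, h2.1⟩
    intro h3
    have h4 : (Sum.inl (ji p q) : (ℕ × ℕ × ℕ) ⊕ (ℕ ⊕ ℕ)) = Sum.inl (ji p q') := by
      refine crc_inj hSP S N ?_ ?_ h3
      · simpa [Ix] using hj
      · simpa [Ix] using hj'
    have h5 : ji p q = ji p q' := Sum.inl_injective h4
    apply hne
    have h6 := congrArg Prod.snd h5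
    exact h6
  have hcard : Q.card ≤ hfin.toFinset.card :=
    Finset.card_le_card_of_injOn _ hmaps hinj
  have hQc : Q.card = C ^ 2 * A := by
    rw [hQ, Finset.card_product, Nat.card_Icc, Nat.card_Icc]
    simp
    ring
  rw [hQc, ← Set.ncard_eq_toFinset_card _ hfin] at hcard
  unfold complexity
  exact hcard.trans (Nat.le_add_left _ _)

end

end MCO

open MCO in
theorem hCO (hFR : StFR) (hBD : StBD) (hSP : StSP) (hEP : StEP) : StCO := by
  classical
  intro A C m n hA hC hn hm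
  obtain ⟨ε, η, u, e, S⟩ := exists_small hEP A C hA hC
  obtain ⟨N, hN⟩ := Nat.exists_eq_add_of_le hn
  rw [← card_Px A C] at hm
  obtain ⟨P, hP, hPc⟩ := Finset.exists_subset_card_eq hm
  refine ⟨∑ c ∈ P.image (cell A C N ε e),
    complexity (circles A C N ε e : Set (Set ℂ)) c, ?_, ?_⟩
  · refine ⟨circles A C N ε e, P.image (cell A C N ε e), ?_, isCircle hSP S N, ?_, ?_, rfl⟩
    · rw [card_circles hSP S N, hN]
      ring
    · rw [Finset.card_image_of_injOn, hPc]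
      exact (cell_inj hSP S hA hC N).mono (by exact_mod_cast hP)
    · intro c hc
      rw [Finset.mem_image] at hc
      obtain ⟨p, hp, rfl⟩ := hc
      have hp' := hP hp
      have h := mem_Px.1 hp'
      exact ⟨bp e p, rg_free hSP S h.1.2 (by omega) h.2.2 N (bp_mem S hp'), rfl⟩
  · have h1 : ∀ c ∈ P.image (cell A C N ε e), C ^ 2 * A ≤
        complexity (circles A C N ε e : Set (Set ℂ)) c := by
      intro c hc
      rw [Finset.mem_image] at hc
      obtain ⟨p, hp, rfl⟩ := hc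
      exact edges_cell hFR hBD hSP S N (hP hp)
    have h2 := Finset.card_nsmul_le_sum _ _ _ h1
    rw [Finset.card_image_of_injOn ((cell_inj hSP S hA hC N).mono (by exact_mod_cast hP)), hPc,
      smul_eq_mul] at h2
    exact h2

end Pool.Agent.Helper97.MC
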