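import Pool.Agent.Helper97.MC.Defs

/-!
# Many cells in an arrangement of circles: interface statements

The theorem: `K(m, n) ≥ m ^ (1/2) n ^ (5/6) / 48` for `n ^ (1/3) ≤ m ≤ n / 48`.
The written proof is in `/team-store/MP_a40b4e-group.md`.
-/

set_option autoImplicit false

namespace Pool.Agent.Helper97.MC

/-- (FR) An edge one of whose points is adherent to a cell lies on the boundary of the cell.
PROOF.  `c` is open (a component of an open set, `IsOpen.connectedComponentIn`; `⋃₀ 𝒞` is closed) and disjoint from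
`C`, so it is enough to show that the preconnected set `e = connectedComponentIn (C \ vertices 𝒞) q` is contained in
`closure c`.  Let `U` be the set of the `x` which have an open neighbourhood `N` with `N ∩ C ⊆ closure c`; `U` is open.
CLAIM: every `x ∈ e ∩ closure c` is in `U`.  Then `e ⊆ U ∪ (closure c)ᶜ`, `q ∈ e ∩ U`; if `e ∩ (closure c)ᶜ` were not empty then
(`IsPreconnected`) there would be `y ∈ e ∩ U ∩ (closure c)ᶜ`, but `y ∈ C`, so `y ∈ N ∩ C ⊆ closure c`, a contradiction.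
PROOF OF THE CLAIM.  `C = sphere z r`, `x` lies on no other circle of the finite family (`x ∉ vertices`), so there
is an open `W ∋ x` disjoint from the other circles.  Let `inv = EuclideanGeometry.inversion z r`, continuous at `x`
with `inv x = x` (`EuclideanGeometry.inversion_of_mem_sphere`).  Choose `δ > 0` with `ball x δ ⊆ W`, `z ∉ ball x δ`,
`inv '' ball x δ ⊆ W`.  Put `N₁ = ball z r ∩ ball x δ` (convex, so preconnected), `N₂ = inv '' N₁` (preconnected; outside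
the closed disk); both are disjoint from all circles, and contained in `W`.  Let `N ∋ x` be an open
neighbourhood contained in `ball x δ` and with `inv '' N ⊆ ball x δ`.  As `x ∈ closure c` there is `w ∈ N ∩ c`, `w ∉ C`; if `dist w z < r` then
`w ∈ N₁`, and if `dist w z > r` then `w = inv (inv w) ∈ N₂` (`EuclideanGeometry.inversion_inversion`).  So `N₁ ⊆ c` or `N₂ ⊆ c`
(a preconnected subset of the complement of the circles meeting the component `c`:
`IsPreconnected.subset_connectedComponentIn`, `connectedComponentIn_eq`).  Finally every `y ∈ N ∩ C` is in the closure of `N₁` and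
of `N₂`: `z + t (y - z) ∈ N₁` for `t < 1` close to `1`, and its inversion is `z + t⁻¹ (y - z)`. -/
def StFR : Prop :=
  ∀ 𝒞 : Finset (Set ℂ), (∀ C ∈ 𝒞, IsCircle C) → ∀ c ∈ cells (𝒞 : Set (Set ℂ)), ∀ C ∈ 𝒞,
    ∀ q ∈ C \ vertices (𝒞 : Set (Set ℂ)), q ∈ closure c →
      connectedComponentIn (C \ vertices (𝒞 : Set (Set ℂ))) q ⊆ frontier c

/-- (BD) The numbers of vertices and edges are bounded in terms of the number of circles.
PROOF.  Two distinct circles meet in at most two points (`EuclideanGeometry.eq_of_dist_eq_of_dist_eq_of_finrank_eq_two`, or by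
hand; circles with the same centre are equal or disjoint), so the vertices are at most `2 n ^ 2` points.  For a circle
`C = sphere z r` and a finite set `V` the number of components of `C \ V` is at most `|V| + 1`: LEMMA: for a finite set `T ⊆ ℝ`
the set `Ioc 0 (2 π) \ T` is a union of at most `|T| + 1` sets which are `OrdConnected` (induction on `T`: removing a
point `t` splits one of the sets into `J ∩ Iio t` and `J ∩ Ioi t`; the images of the `OrdConnected` sets need not be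
disjoint), hence preconnected.  Apply it to the (finite, at most `|V|` elements by injectivity on
`Ioc 0 (2 π)`) preimage of `V` under `θ ↦ z + r * exp(θ I)`; the image of each of the sets is preconnected and contained in
`C \ V`, so in one component, and the images cover `C \ V`.  Any explicit or non-explicit bound is fine: the
statement only wants some function `B`. -/
def StBD : Prop :=
  ∃ B : ℕ → ℕ, ∀ 𝒞 : Finset (Set ℂ), (∀ C ∈ 𝒞, IsCircle C) →
    (vertices (𝒞 : Set (Set ℂ))).Finite ∧ (edges (𝒞 : Set (Set ℂ))).Finite ∧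
    (vertices (𝒞 : Set (Set ℂ))).ncard ≤ B 𝒞.card ∧ (edges (𝒞 : Set (Set ℂ))).ncard ≤ B 𝒞.card

/-- The equation of the circle which approximates the parabola `Y = a + b x + c x ^ 2`, where `y = e Y`. -/
noncomputable def Hf (e a b c : ℝ) (z : ℂ) : ℝ :=
  c * (z.re ^ 2 + z.im ^ 2) + b * z.re + a - z.im / e

/-- (SP) PROOF.  Complete the squares. -/
def StSP : Prop :=
  ∀ e a b c : ℝ, 0 < e → 0 < c → 4 * a * c < b ^ 2 + 1 / e ^ 2 →
    0 < Real.sqrt (b ^ 2 + 1 / e ^ 2 - 4 * a * c) / (2 * c) ∧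
    {z : ℂ | Hf e a b c z = 0} =
      Metric.sphere (⟨-b / (2 * c), 1 / (2 * c * e)⟩ : ℂ)
        (Real.sqrt (b ^ 2 + 1 / e ^ 2 - 4 * a * c) / (2 * c))

/-- The three coefficients of the shifted parabola
`g(x) = a + b x + c x² + ε (b + 2 c x)² + 4 ε² c (b + 2 c x)² + ε² (C - c)² / (4 C)`. -/
noncomputable def c0 (ε C a b c : ℝ) : ℝ :=
  a + ε * b ^ 2 + 4 * ε ^ 2 * c * b ^ 2 + ε ^ 2 * (C - c) ^ 2 / (4 * C)
/-- The second coefficient. -/
noncomputable def c1 (ε b c : ℝ) : ℝ := b + 4 * ε * b * c + 16 * ε ^ 2 * b * c ^ 2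
/-- The third coefficient. -/
noncomputable def c2 (ε c : ℝ) : ℝ := c + 4 * ε * c ^ 2 + 16 * ε ^ 2 * c ^ 3
/-- The shifted parabola. -/
noncomputable def gf (ε C a b c x : ℝ) : ℝ := c0 ε C a b c + c1 ε b c * x + c2 ε c * x ^ 2

/-- (EP) The shifts.  PROOF.  Fix `A, C`.  Take `η = M ε`, `M = 6 C A + 2`, and `u = ε (-2 s + w)`, `s = b + 2 c x₀`,
`w = √((C - c) / (2 C))`.  For `ε → 0` everything is a polynomial in `ε`; all conditions but the first are finite in number.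
First condition: `|v| ≤ M`, `x = x₀ + ε v`: compactness (`IsCompact.eventually_forall_of_forall_eventually`) or explicit bounds.
Last condition: with `s' = b' + 2 c' x₀` the difference of the two values is `ε ((s' - s)² + (s' - s) w) + O(ε²)` if
`s' ≠ s`, and `ε² ((c' - c)² / (4 C)) + O(ε³)` if `s' = s`. -/
def StEP : Prop :=
  ∀ A C : ℕ, 1 ≤ A → 1 ≤ C → ∃ (ε η : ℝ) (u : ℕ → ℕ → ℕ → ℝ), 0 < ε ∧ 0 < η ∧ η ≤ 1 / 4 ∧
    (∀ x₀ a b c : ℕ, x₀ ≤ A → a ≤ 4 * C * A ^ 2 → b ≤ C * A → c ≤ C → ∀ x : ℝ, |x - x₀| ≤ η →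
      |gf ε C a b c x - (a + b * x₀ + c * x₀ ^ 2)| < 1 / 4) ∧
    (∀ x₀ b c : ℕ, x₀ ≤ A → b ≤ C * A → c ≤ C → |u x₀ b c| < η) ∧
    ∀ x₀ a b c a' b' c' : ℕ, x₀ ≤ A → b ≤ C * A → c ≤ C → b' ≤ C * A → c' ≤ C →
      a + b * x₀ + c * x₀ ^ 2 = a' + b' * x₀ + c' * x₀ ^ 2 → (b, c) ≠ (b', c') →
      gf ε C a b c (x₀ + u x₀ b c) < gf ε C a' b' c' (x₀ + u x₀ b c)

/-- (CO) The configuration. -/
def StCO : Prop :=
  ∀ A C m n : ℕ, 1 ≤ A → 1 ≤ C → 4 * C ^ 3 * A ^ 3 + A ≤ n → m ≤ 2 * C * A ^ 3 →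
    ∃ k ∈ totals m n, m * (C ^ 2 * A) ≤ k

/-- (FI) The final computation.  PROOF.  Let `t = (m / n^(1/3))^(1/2) ≥ 1`, `A = ⌈2 t⌉ ≤ 3 t`, `C = ⌊n^(1/3) / (2 A)⌋`.
As `m ≤ n / 48`: `A ≤ 3 t ≤ 3 / √48 n^(1/3) ≤ n^(1/3) / 2`, so `C ≥ 1` and `C ≥ n^(1/3) / (4 A)`.
`4 C³ A³ + A ≤ n / 2 + n^(1/3) / 2 ≤ n`; `2 C A³ ≥ n^(1/3) A² / 2 ≥ 2 m`;
`m C² A ≥ m n^(2/3) / (16 A) ≥ m n^(2/3) / (48 t) = m^(1/2) n^(5/6) / 48`. -/
def StFI : Prop :=
  ∀ m n : ℕ, (n : ℝ) ^ (1 / 3 : ℝ) ≤ m → 48 * m ≤ n → 1 ≤ n → ∃ A C : ℕ, 1 ≤ A ∧ 1 ≤ C ∧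
    4 * C ^ 3 * A ^ 3 + A ≤ n ∧ m ≤ 2 * C * A ^ 3 ∧
    (m : ℝ) ^ (1 / 2 : ℝ) * (n : ℝ) ^ (5 / 6 : ℝ) ≤ 48 * ((m * (C ^ 2 * A) : ℕ) : ℝ)

end Pool.Agent.Helper97.MC
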